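import Mathlib

/-!
# Averaging: few elements suffice to make the dimension of the fixed points stationary
-/

set_option autoImplicit false
set_option linter.unusedSectionVars false

open scoped BigOperators Classical
open Finset

noncomputable section

namespace Pool.Agent.Helper89.LG

variable {Q : Type} [Group Q] [Fintype Q]

/-- the average over a subgroup -/
def av (H : Subgroup Q) (f : Q → ℝ) : ℝ := (Nat.card H : ℝ)⁻¹ * ∑ h : Q, if h ∈ H then f h else 0

lemma av_const (H : Subgroup Q) (c : ℝ) : av H (fun _ => c) = c := by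
  have hN : (Nat.card H : ℝ) ≠ 0 := by exact_mod_cast Nat.card_pos.ne'
  have h3 : ((Finset.univ.filter fun x : Q => x ∈ H).card : ℝ) = Nat.card H := by
    rw [Nat.card_eq_fintype_card, Fintype.card_subtype]
  rw [av, ← Finset.sum_filter, Finset.sum_const, nsmul_eq_mul, h3, inv_mul_cancel_left₀ hN]

/-- sum over all translates by a bijection -/
lemma sum_av (H : Subgroup Q) (b : Q → ℝ) (e : Q ≃ Q) :
    ∑ g : Q, av H (fun h => b (e g * h)) = ∑ g : Q, b g := by
  have h1 : ∀ h : Q, ∑ g : Q, (if h ∈ H then b (e g * h) else 0) =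
      if h ∈ H then ∑ g : Q, b g else 0 := by
    intro h
    split_ifs
    · exact Fintype.sum_equiv (e.trans (Equiv.mulRight h)) _ _ fun g => by simp
    · simp
  have h2 : ∑ g : Q, av H (fun h => b (e g * h)) = av H (fun _ => ∑ g : Q, b g) := by
    unfold av
    rw [← Finset.mul_sum, Finset.sum_comm]
    congr 1
    exact Finset.sum_congr rfl fun h _ => h1 h
  rw [h2, av_const]

/-- the hypotheses -/
structure Data (Q : Type) [Group Q] [Fintype Q] (q m : ℕ) where
  /-- the subgroups which are considered -/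
  cov : Subgroup Q → Prop
  /-- the dimensions -/
  D : Subgroup Q → ℕ
  /-- the character -/
  b : Q → ℝ
  q_pos : 2 ≤ q
  coprime : ∀ i, 0 < i → i < q → (Nat.card Q).Coprime i
  gen : ∀ s : Finset Q, s.card ≤ m → cov (Subgroup.closure (s : Set Q))
  pos : ∀ H, cov H → 1 ≤ D H
  dim : ∀ H X, cov X → H ≤ X → (D H : ℝ) = av H b
  ineq : ∀ H X, cov X → H ≤ X → ∀ g ∈ X, (q : ℝ) ^ 2 * D X ≤
    ∑ i ∈ range q, ∑ j ∈ range q, av H (fun h => b ((g ^ i)⁻¹ * g ^ j * h))
  low : ∀ H X, cov X → H ≤ X → ∀ g ∈ X,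
    av H (fun h => b (g * h)) + av H (fun h => b (g⁻¹ * h)) ≤ 2 * D H

namespace Data

variable {q m : ℕ} (S : Data Q q m)

/-- the average over the group -/
def T : ℝ := (Nat.card Q : ℝ)⁻¹ * ∑ g : Q, S.b g

lemma sum_b : ∑ g : Q, S.b g = (Nat.card Q : ℝ) * S.T := by
  have hN : (Nat.card Q : ℝ) ≠ 0 := by exact_mod_cast Nat.card_pos.ne'
  rw [T, mul_inv_cancel_left₀ hN]

lemma sum_pow (H : Subgroup Q) {i j : ℕ} (hi : i < q) (hj : j < q) (hij : i ≠ j) :
    ∑ g : Q, av H (fun h => S.b ((g ^ i)⁻¹ * g ^ j * h)) = (Nat.card Q : ℝ) * S.T := by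
  rw [← S.sum_b]
  rcases lt_or_gt_of_ne hij with h | h
  · have hc := S.coprime (j - i) (by omega) (by omega)
    have h1 := sum_av H S.b (powCoprime hc)
    rw [← h1]
    refine Finset.sum_congr rfl fun g _ => ?_
    have h2 : (g ^ i)⁻¹ * g ^ j = powCoprime hc g := by
      have h3 : g ^ j = g ^ i * g ^ (j - i) := by rw [← pow_add]; congr 1; omega
      rw [powCoprime_apply, h3, inv_mul_cancel_left]
    rw [h2]
  · have hc := S.coprime (i - j) (by omega) (by omega)
    have h1 := sum_av H S.b ((powCoprime hc).trans (Equiv.inv Q))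
    rw [← h1]
    refine Finset.sum_congr rfl fun g _ => ?_
    have h2 : (g ^ i)⁻¹ * g ^ j = ((powCoprime hc).trans (Equiv.inv Q)) g := by
      have h3 : g ^ i = g ^ j * g ^ (i - j) := by rw [← pow_add]; congr 1; omega
      rw [Equiv.trans_apply, powCoprime_apply, Equiv.inv_apply, h3]
      group
    rw [h2]

/-- one step -/
theorem step (H : Subgroup Q) (hH : ∀ g, S.cov (H ⊔ Subgroup.zpowers g)) :
    ∃ g, (q : ℝ) * S.D (H ⊔ Subgroup.zpowers g) ≤ S.D H + ((q : ℝ) - 1) * S.T := by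
  have hN : (0 : ℝ) < Nat.card Q := by exact_mod_cast Nat.card_pos
  have hq : (0 : ℝ) < q := by exact_mod_cast (show 0 < q by have := S.q_pos; omega)
  have hcov : ∀ g, (q : ℝ) ^ 2 * S.D (H ⊔ Subgroup.zpowers g) ≤
      ∑ i ∈ range q, ∑ j ∈ range q, av H (fun h => S.b ((g ^ i)⁻¹ * g ^ j * h)) := fun g =>
    S.ineq H _ (hH g) le_sup_left g (le_sup_right (a := H) (Subgroup.mem_zpowers g))
  have hsum : ∑ g : Q, ∑ i ∈ range q, ∑ j ∈ range q, av H (fun h => S.b ((g ^ i)⁻¹ * g ^ j * h)) =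
      ∑ g : Q, ((q : ℝ) * S.D H + ((q : ℝ) ^ 2 - q) * S.T) := by
    rw [Finset.sum_comm]
    have h1 : ∀ i ∈ range q, ∑ g : Q, ∑ j ∈ range q,
        av H (fun h => S.b ((g ^ i)⁻¹ * g ^ j * h)) =
        (Nat.card Q : ℝ) * (S.D H + ((q : ℝ) - 1) * S.T) := by
      intro i hi
      have hi' := Finset.mem_range.1 hi
      rw [Finset.sum_comm, ← Finset.add_sum_erase _ _ hi]
      have h2 : ∑ g : Q, av H (fun h => S.b ((g ^ i)⁻¹ * g ^ i * h)) = (Nat.card Q : ℝ) * S.D H := by
        simp only [inv_mul_cancel, one_mul]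
        rw [S.dim H _ (hH 1) le_sup_left, Finset.sum_const, nsmul_eq_mul, Finset.card_univ,
          Nat.card_eq_fintype_card]
      have h3 : ∑ j ∈ (range q).erase i, ∑ g : Q, av H (fun h => S.b ((g ^ i)⁻¹ * g ^ j * h)) =
          ((q : ℝ) - 1) * ((Nat.card Q : ℝ) * S.T) := by
        rw [Finset.sum_congr rfl (g := fun _ => (Nat.card Q : ℝ) * S.T) (fun j hj => by
          rw [Finset.mem_erase, Finset.mem_range] at hj
          exact S.sum_pow H hi' hj.2 (Ne.symm hj.1)), Finset.sum_const, Finset.card_erase_of_mem hi,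
          Finset.card_range, nsmul_eq_mul, Nat.cast_sub (by have := S.q_pos; omega), Nat.cast_one]
      rw [h2, h3]
      ring
    rw [Finset.sum_congr rfl h1, Finset.sum_const, Finset.sum_const, Finset.card_range,
      nsmul_eq_mul, nsmul_eq_mul, Finset.card_univ, Nat.card_eq_fintype_card]
    ring
  obtain ⟨g, _, hg⟩ := Finset.exists_le_of_sum_le (s := (Finset.univ : Finset Q))
    Finset.univ_nonempty (f := fun g => (q : ℝ) ^ 2 * (S.D (H ⊔ Subgroup.zpowers g) : ℝ))
    (g := fun _ => (q : ℝ) * S.D H + ((q : ℝ) ^ 2 - q) * S.T)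
    ((Finset.sum_le_sum fun g _ => hcov g).trans hsum.le)
  refine ⟨g, ?_⟩
  have h1 : (q : ℝ) * (q * (S.D (H ⊔ Subgroup.zpowers g) : ℝ)) ≤
      q * (S.D H + ((q : ℝ) - 1) * S.T) := by
    calc (q : ℝ) * (q * (S.D (H ⊔ Subgroup.zpowers g) : ℝ)) =
          (q : ℝ) ^ 2 * (S.D (H ⊔ Subgroup.zpowers g) : ℝ) := by ring
      _ ≤ _ := hg
      _ = _ := by ring
  exact le_of_mul_le_mul_left h1 hq

/-- the lower bound -/
theorem T_le (H : Subgroup Q) (hH : ∀ g, S.cov (H ⊔ Subgroup.zpowers g)) : S.T ≤ S.D H := by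
  have hN : (0 : ℝ) < Nat.card Q := by exact_mod_cast Nat.card_pos
  have h1 : ∑ g : Q, (av H (fun h => S.b (g * h)) + av H (fun h => S.b (g⁻¹ * h))) ≤
      ∑ g : Q, (2 * (S.D H : ℝ)) := Finset.sum_le_sum fun g _ =>
    S.low H _ (hH g) le_sup_left g (le_sup_right (a := H) (Subgroup.mem_zpowers g))
  have h2 := sum_av H S.b (Equiv.refl Q)
  have h3 := sum_av H S.b (Equiv.inv Q)
  simp only [Equiv.refl_apply] at h2
  simp only [Equiv.inv_apply] at h3
  rw [Finset.sum_add_distrib, h2, h3, S.sum_b, Finset.sum_const, nsmul_eq_mul, Finset.card_univ,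
    ← Nat.card_eq_fintype_card] at h1
  have h4 : (Nat.card Q : ℝ) * (2 * S.T) ≤ (Nat.card Q : ℝ) * (2 * S.D H) := by linarith
  have h5 := le_of_mul_le_mul_left h4 hN
  linarith

lemma closure_insert_eq (s : Finset Q) (g : Q) :
    Subgroup.closure ((insert g s : Finset Q) : Set Q) =
      Subgroup.closure (s : Set Q) ⊔ Subgroup.zpowers g := by
  rw [Finset.coe_insert, Set.insert_eq, Subgroup.closure_union, sup_comm,
    Subgroup.zpowers_eq_closure]

/-- a chain of subgroups -/
theorem chain (s : ℕ) (hs : s ≤ m) : ∃ t : Finset Q, t.card ≤ s ∧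
    (q : ℝ) ^ s * (S.D (Subgroup.closure (t : Set Q)) - S.T) ≤ S.D ⊥ - S.T := by
  induction s with
  | zero =>
    refine ⟨∅, by simp, ?_⟩
    rw [Finset.coe_empty, Subgroup.closure_empty, pow_zero, one_mul]
  | succ s ih =>
    obtain ⟨t, ht, h1⟩ := ih (by omega)
    obtain ⟨g, hg⟩ := S.step (Subgroup.closure (t : Set Q)) (fun g => by
      rw [← closure_insert_eq]
      exact S.gen _ ((Finset.card_insert_le _ _).trans (by omega)))
    refine ⟨insert g t, (Finset.card_insert_le _ _).trans (by omega), ?_⟩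
    rw [closure_insert_eq]
    have hq : (0 : ℝ) < q := by exact_mod_cast (show 0 < q by have := S.q_pos; omega)
    calc (q : ℝ) ^ (s + 1) * (S.D (Subgroup.closure (t : Set Q) ⊔ Subgroup.zpowers g) - S.T) =
          (q : ℝ) ^ s * (q * S.D (Subgroup.closure (t : Set Q) ⊔ Subgroup.zpowers g) - q * S.T) := by
          ring
      _ ≤ (q : ℝ) ^ s * ((S.D (Subgroup.closure (t : Set Q)) + ((q : ℝ) - 1) * S.T) - q * S.T) := by
          gcongr
      _ = (q : ℝ) ^ s * (S.D (Subgroup.closure (t : Set Q)) - S.T) := by ring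
      _ ≤ _ := h1

/-- **a stationary subgroup generated by `m - 2` elements** -/
theorem stationary (hm : 2 ≤ m) (hd : S.D ⊥ ≤ q ^ (m - 2)) : ∃ t : Finset Q, t.card ≤ m - 2 ∧
    ∀ g, S.D (Subgroup.closure (t : Set Q)) ≤ S.D (Subgroup.closure (t : Set Q) ⊔
      Subgroup.zpowers g) := by
  obtain ⟨t, ht, h1⟩ := S.chain (m - 2) (by omega)
  refine ⟨t, ht, fun g => ?_⟩
  set H := Subgroup.closure (t : Set Q) with hH
  set X := H ⊔ Subgroup.zpowers g with hX
  have hXe : X = Subgroup.closure ((insert g t : Finset Q) : Set Q) := by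
    rw [closure_insert_eq]
  have hcard : (insert g t).card ≤ m - 1 := (Finset.card_insert_le _ _).trans (by omega)
  have hcX : S.cov X := by
    rw [hXe]
    exact S.gen _ (by omega)
  have hT : S.T ≤ S.D X := by
    apply S.T_le
    intro g'
    rw [hXe, ← closure_insert_eq]
    exact S.gen _ ((Finset.card_insert_le _ _).trans (by omega))
  have hpos := S.pos X hcX
  have hq : (2 : ℝ) ≤ q := by exact_mod_cast S.q_pos
  set c : ℝ := (q : ℝ) ^ (m - 2) with hc
  have hc1 : 1 ≤ c := one_le_pow₀ (by linarith)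
  have hd' : (S.D ⊥ : ℝ) ≤ c := by
    rw [hc]
    exact_mod_cast hd
  have hpos' : (1 : ℝ) ≤ S.D X := by exact_mod_cast hpos
  by_contra hcon
  push Not at hcon
  have hcon' : (S.D X : ℝ) + 1 ≤ S.D H := by exact_mod_cast hcon
  rcases le_or_gt S.T 0 with hT0 | hT0
  · -- `D H ≤ 1`
    have h2 : c * S.D H ≤ c + (c - 1) * S.T := by nlinarith
    have h3 : (c - 1) * S.T ≤ 0 := mul_nonpos_of_nonneg_of_nonpos (by linarith) hT0
    have h4 : c * S.D H ≤ c * 1 := by linarith
    have h5 := le_of_mul_le_mul_left h4 (by linarith)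
    linarith
  · have h2 : c * S.D H ≤ c + (c - 1) * S.T := by nlinarith
    have h3 : c * S.D H < c * (1 + S.T) := by nlinarith
    have h4 := lt_of_mul_lt_mul_left h3 (by linarith)
    linarith

end Data

end Pool.Agent.Helper89.LG
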