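import Pool.Graph.R_pool_sql_team_seeded_3997aac3.Q227.CD.BN
import Pool.Graph.R_pool_sql_team_seeded_3997aac3.Q227.CD.MF

/-!
# Matrix functions which are semisimple representations on subgroups
-/

set_option autoImplicit false
set_option linter.unusedSectionVars false

open scoped Matrix

namespace Pool.Agent.Helper89.LG

open Representation Module Pool.Agent.Q15.GR Pool.Agent.Q227.CD

section maschke

variable {k : Type} [Field k] {G V : Type} [Group G] [AddCommGroup V] [Module k V]

theorem semi_iff (ρ : Representation k G V) : ρ.IsSemisimpleRepresentation ↔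
    ∀ W : Submodule k V, (∀ g, ∀ w ∈ W, ρ g w ∈ W) →
      ∃ W' : Submodule k V, (∀ g, ∀ w ∈ W', ρ g w ∈ W') ∧ IsCompl W W' := by
  constructor
  · intro h W hW
    let X : Subrepresentation ρ := ⟨W, fun g v hv => hW g v hv⟩
    obtain ⟨Y, hY⟩ := h.exists_isCompl X
    exact ⟨Y.toSubmodule, fun g v hv => Y.apply_mem_toSubmodule g hv, isCompl_sub hY⟩
  · intro h
    refine ⟨fun X => ?_⟩
    obtain ⟨W', h1, h2⟩ := h X.toSubmodule (fun g v hv => X.apply_mem_toSubmodule g hv)
    let Y : Subrepresentation ρ := ⟨W', fun g v hv => h1 g v hv⟩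
    refine ⟨Y, ?_, ?_⟩
    · rw [disjoint_iff]
      apply Subrepresentation.toSubmodule_injective
      exact disjoint_iff.1 h2.disjoint
    · rw [codisjoint_iff]
      apply Subrepresentation.toSubmodule_injective
      exact codisjoint_iff.1 h2.codisjoint

/-- a representation which is semisimple on a normal subgroup of finite index prime to the
characteristic is semisimple -/
theorem semi_of_index (ρ : Representation k G V) (N : Subgroup G) [N.Normal] [N.FiniteIndex]
    (hN : (N.index : k) ≠ 0)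
    (h : IsSemisimpleRepresentation (ρ.comp N.subtype : Representation k N V)) :
    ρ.IsSemisimpleRepresentation := by
  classical
  haveI : Finite (G ⧸ N) := Subgroup.finite_quotient_of_finiteIndex
  letI : Fintype (G ⧸ N) := Fintype.ofFinite _
  refine ⟨fun X => ?_⟩
  let X' : Subrepresentation (ρ.comp N.subtype : Representation k N V) :=
    { toSubmodule := X.toSubmodule
      apply_mem_toSubmodule := fun h v hv => X.apply_mem_toSubmodule (h : G) hv }
  obtain ⟨Y', hY'⟩ := h.exists_isCompl X'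
  have hc : IsCompl X.toSubmodule Y'.toSubmodule := isCompl_sub hY'
  set P := X.toSubmodule.projection Y'.toSubmodule hc with hP
  have hPN : ∀ ν : N, P ∘ₗ ρ ν = ρ ν ∘ₗ P := fun ν => proj_comm (X := X') (Y := Y') hc ν
  let T : G → (V →ₗ[k] V) := fun g => ρ g ∘ₗ P ∘ₗ ρ g⁻¹
  have hT : ∀ g (ν : N), T (g * ν) = T g := by
    intro g ν
    refine LinearMap.ext fun v => ?_
    change ρ (g * ν) (P (ρ (g * ν)⁻¹ v)) = ρ g (P (ρ g⁻¹ v))
    rw [mul_inv_rev, map_mul, map_mul, Module.End.mul_apply, Module.End.mul_apply]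
    have h1 := LinearMap.congr_fun (hPN ν⁻¹) (ρ g⁻¹ v)
    change P (ρ ((ν : G)⁻¹) (ρ g⁻¹ v)) = ρ ((ν : G)⁻¹) (P (ρ g⁻¹ v)) at h1
    rw [h1, ← Module.End.mul_apply (ρ (ν : G)), ← map_mul, mul_inv_cancel, map_one,
      Module.End.one_apply]
  have hTout : ∀ g, T (QuotientGroup.mk g : G ⧸ N).out = T g := by
    intro g
    obtain ⟨ν, hν⟩ := QuotientGroup.mk_out_eq_mul N g
    rw [hν, hT]
  have hTx : ∀ x g v, ρ x (T g v) = T (x * g) (ρ x v) := by
    intro x g v
    change ρ x (ρ g (P (ρ g⁻¹ v))) = ρ (x * g) (P (ρ (x * g)⁻¹ (ρ x v)))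
    rw [← Module.End.mul_apply, ← map_mul, ← Module.End.mul_apply (ρ (x * g)⁻¹), ← map_mul]
    congr 4
    group
  let m : k := (Fintype.card (G ⧸ N) : k)
  have hm : m ≠ 0 := by
    have h1 : m = (N.index : k) := by
      simp only [m]
      rw [Subgroup.index, Nat.card_eq_fintype_card]
    rw [h1]
    exact hN
  let Q : V →ₗ[k] V := m⁻¹ • ∑ q : G ⧸ N, T q.out
  have hQ : ∀ v, Q v = m⁻¹ • ∑ q : G ⧸ N, T q.out v := by
    intro v
    change (m⁻¹ • ∑ q : G ⧸ N, T q.out) v = _
    rw [LinearMap.smul_apply, LinearMap.sum_apply]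
  have hQx : ∀ x v, ρ x (Q v) = Q (ρ x v) := by
    intro x v
    rw [hQ, hQ, map_smul, map_sum]
    congr 1
    rw [← Equiv.sum_comp (MulAction.toPerm x : Equiv.Perm (G ⧸ N)) (fun q => T q.out (ρ x v))]
    refine Finset.sum_congr rfl fun q _ => ?_
    rw [hTx]
    congr 1
    obtain ⟨g, rfl⟩ := QuotientGroup.mk_surjective q
    obtain ⟨ν, hν⟩ := QuotientGroup.mk_out_eq_mul N g
    change T (x * (QuotientGroup.mk g : G ⧸ N).out) = T (QuotientGroup.mk (x * g) : G ⧸ N).out
    rw [hTout, hν, ← mul_assoc, hT]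
  have hTX : ∀ g v, T g v ∈ X.toSubmodule := fun g v =>
    X.apply_mem_toSubmodule g (Submodule.projection_apply_mem hc _)
  have hQX : ∀ v, Q v ∈ X.toSubmodule := by
    intro v
    rw [hQ]
    exact X.toSubmodule.smul_mem _ (Submodule.sum_mem _ fun q _ => hTX _ _)
  have hQid : ∀ v ∈ X.toSubmodule, Q v = v := by
    intro v hv
    have h1 : ∀ g, T g v = v := by
      intro g
      change ρ g (P (ρ g⁻¹ v)) = v
      rw [hP, Submodule.projection_apply_of_mem_left hc (X.apply_mem_toSubmodule g⁻¹ hv),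
        ← Module.End.mul_apply, ← map_mul, mul_inv_cancel, map_one, Module.End.one_apply]
    rw [hQ, Finset.sum_congr rfl fun q _ => h1 _, Finset.sum_const, Finset.card_univ,
      ← Nat.cast_smul_eq_nsmul k, smul_smul, inv_mul_cancel₀ hm, one_smul]
  let Y : Subrepresentation ρ :=
    { toSubmodule := LinearMap.ker Q
      apply_mem_toSubmodule := fun g v hv => by
        rw [LinearMap.mem_ker] at hv ⊢
        rw [← hQx, hv, map_zero] }
  refine ⟨Y, ?_, ?_⟩
  · rw [disjoint_iff]
    apply Subrepresentation.toSubmodule_injective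
    change X.toSubmodule ⊓ LinearMap.ker Q = ⊥
    rw [Submodule.eq_bot_iff]
    rintro v ⟨hv1, hv2⟩
    rw [← hQid v hv1]
    exact hv2
  · rw [codisjoint_iff]
    apply Subrepresentation.toSubmodule_injective
    change X.toSubmodule ⊔ LinearMap.ker Q = ⊤
    rw [eq_top_iff]
    intro v _
    rw [Submodule.mem_sup]
    refine ⟨Q v, hQX v, v - Q v, ?_, by abel⟩
    rw [LinearMap.mem_ker, map_sub, hQid _ (hQX v), sub_self]

end maschke

variable {Γ : Type} [Group Γ] {k : Type} [Field k] {n : ℕ}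

/-- `W` is stable under `r x` for `x ∈ X` -/
def StableOn (X : Subgroup Γ) (r : Γ → Matrix (Fin n) (Fin n) k) (W : Submodule k (Fin n → k)) :
    Prop := ∀ x ∈ X, ∀ w ∈ W, r x *ᵥ w ∈ W

/-- `r` is, on `X ≥ N`, a representation with eigenvalues `P`, semisimple on `N` -/
structure Good (N : Subgroup Γ) (P : Γ → Multiset k) (X : Subgroup Γ)
    (r : Γ → Matrix (Fin n) (Fin n) k) : Prop where
  le : N ≤ X
  one : r 1 = 1
  mul : ∀ x ∈ X, ∀ y ∈ X, r (x * y) = r x * r y
  roots : ∀ x ∈ X, (r x).charpoly.roots = P x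
  semi : ∀ W, StableOn N r W → ∃ W', StableOn N r W' ∧ IsCompl W W'

namespace Good

variable {N : Subgroup Γ} {P : Γ → Multiset k} {X Y : Subgroup Γ}
  {r r' : Γ → Matrix (Fin n) (Fin n) k}

theorem mono (h : Good N P X r) (hN : N ≤ Y) (hY : Y ≤ X) : Good N P Y r :=
  ⟨hN, h.one, fun x hx y hy => h.mul x (hY hx) y (hY hy), fun x hx => h.roots x (hY hx), h.semi⟩

theorem inv (h : Good N P X r) {x : Γ} (hx : x ∈ X) : r x * r x⁻¹ = 1 := by
  rw [← h.mul x hx x⁻¹ (X.inv_mem hx), mul_inv_cancel, h.one]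

theorem inv' (h : Good N P X r) {x : Γ} (hx : x ∈ X) : r x⁻¹ * r x = 1 := by
  rw [← h.mul x⁻¹ (X.inv_mem hx) x hx, inv_mul_cancel, h.one]

/-- the representation of `X` -/
noncomputable def rep (h : Good N P X r) : Representation k X (Fin n → k) where
  toFun x := Matrix.toLin' (r x)
  map_one' := by
    rw [Subgroup.coe_one, h.one, Matrix.toLin'_one]
    rfl
  map_mul' x y := by
    rw [Subgroup.coe_mul, h.mul x x.2 y y.2, Matrix.toLin'_mul]
    rfl

theorem rep_apply (h : Good N P X r) (x : X) : h.rep x = Matrix.toLin' (r x) := rfl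

/-- conjugation -/
theorem conj (h : Good N P X r) (u : (Matrix (Fin n) (Fin n) k)ˣ) :
    Good N P X (fun x => u.1 * r x * (u⁻¹).1) where
  le := h.le
  one := by
    rw [h.one, mul_one]
    exact Units.mul_inv u
  mul x hx y hy := by
    rw [h.mul x hx y hy]
    have h1 : (u⁻¹).1 * u.1 = 1 := Units.inv_mul u
    calc u.1 * (r x * r y) * (u⁻¹).1 = u.1 * r x * 1 * r y * (u⁻¹).1 := by
          rw [mul_one]; simp only [mul_assoc]
      _ = u.1 * r x * ((u⁻¹).1 * u.1) * r y * (u⁻¹).1 := by rw [h1]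
      _ = _ := by simp only [mul_assoc]
  roots x hx := by
    rw [← h.roots x hx]
    congr 1
    rw [Matrix.coe_units_inv]
    exact Matrix.charpoly_units_conj u (r x)
  semi W hW := by
    have hu : (u⁻¹).1 * u.1 = 1 := Units.inv_mul u
    have hu' : u.1 * (u⁻¹).1 = 1 := Units.mul_inv u
    let e : (Fin n → k) ≃ₗ[k] (Fin n → k) := LinearEquiv.ofLinearMap (Matrix.toLin' u.1)
      (Matrix.toLin' (u⁻¹).1) (by rw [← Matrix.toLin'_mul, hu', Matrix.toLin'_one])
      (by rw [← Matrix.toLin'_mul, hu, Matrix.toLin'_one])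
    have he : ∀ v, e v = u.1 *ᵥ v := fun v => Matrix.toLin'_apply _ _
    have he' : ∀ v, e.symm v = (u⁻¹).1 *ᵥ v := fun v => Matrix.toLin'_apply _ _
    have key : ∀ W : Submodule k (Fin n → k), StableOn N (fun x => u.1 * r x * (u⁻¹).1) W ↔
        StableOn N r (W.comap e.toLinearMap) := by
      intro W
      constructor
      · intro h1 x hx w hw
        have h2 := h1 x hx (e w) hw
        change e (r x *ᵥ w) ∈ W
        rw [he]
        rw [he, Matrix.mulVec_mulVec, mul_assoc, hu, mul_one, ← Matrix.mulVec_mulVec] at h2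
        exact h2
      · intro h1 x hx w hw
        have h2 := h1 x hx (e.symm w) (by
          change e (e.symm w) ∈ W
          rwa [LinearEquiv.apply_symm_apply])
        change e (r x *ᵥ e.symm w) ∈ W at h2
        rw [he, he', Matrix.mulVec_mulVec, Matrix.mulVec_mulVec] at h2
        exact h2
    obtain ⟨W', h1, h2⟩ := h.semi _ ((key W).1 hW)
    refine ⟨W'.map e.toLinearMap, ?_, ?_⟩
    · rw [key]
      have h3 : (W'.map e.toLinearMap).comap e.toLinearMap = W' :=
        Submodule.comap_map_eq_of_injective e.injective W'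
      rw [h3]
      exact h1
    · have h3 : W = (W.comap e.toLinearMap).map e.toLinearMap :=
        (Submodule.map_comap_eq_of_surjective e.surjective W).symm
      rw [h3]
      exact (OrderIso.isCompl_iff (Submodule.orderIsoMapComap e)).1 h2

variable [IsAlgClosed k]

theorem rep_semi [N.Normal] [N.FiniteIndex] (hN : (N.index : k) ≠ 0) (h : Good N P X r) :
    h.rep.IsSemisimpleRepresentation := by
  haveI : (N.subgroupOf X).Normal := inferInstance
  haveI : (N.subgroupOf X).FiniteIndex := inferInstance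
  refine semi_of_index h.rep (N.subgroupOf X) ?_ ?_
  · intro h0
    apply hN
    have h1 : N.relIndex X * X.index = N.index := Subgroup.relIndex_mul_index h.le
    rw [← h1, Nat.cast_mul]
    have h2 : ((N.relIndex X : ℕ) : k) = 0 := h0
    rw [h2, zero_mul]
  · rw [semi_iff]
    intro W hW
    obtain ⟨W', h1, h2⟩ := h.semi W (fun x hx w hw => by
      have h3 := hW ⟨⟨x, h.le hx⟩, hx⟩ w hw
      change (Matrix.toLin' (r x)) w ∈ W at h3
      rwa [Matrix.toLin'_apply] at h3)
    refine ⟨W', fun g w hw => ?_, h2⟩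
    change (Matrix.toLin' (r ((g : X) : Γ))) w ∈ W'
    rw [Matrix.toLin'_apply]
    exact h1 _ g.2 w hw

/-- **Brauer-Nesbitt** -/
theorem exists_conj [N.Normal] [N.FiniteIndex] (hN : (N.index : k) ≠ 0) (h : Good N P X r)
    (h' : Good N P X r') : ∃ u : (Matrix (Fin n) (Fin n) k)ˣ, ∀ x ∈ X,
      r' x = u.1 * r x * (u⁻¹).1 := by
  classical
  obtain ⟨e⟩ := brauer_nesbitt h.rep h'.rep (h.rep_semi hN) (h'.rep_semi hN) (fun x => by
    unfold eig
    rw [rep_apply, rep_apply, Matrix.charpoly_toLin', Matrix.charpoly_toLin', h.roots x x.2,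
      h'.roots x x.2])
  let f : (Fin n → k) ≃ₗ[k] (Fin n → k) := e.toLinearEquiv
  have hf : ∀ (x : X) v, f (h.rep x v) = h'.rep x (f v) := fun x v =>
    IntertwiningMap.isIntertwining _ _ e.toIntertwiningMap x v
  let u : (Matrix (Fin n) (Fin n) k)ˣ :=
    { val := LinearMap.toMatrix' f.toLinearMap
      inv := LinearMap.toMatrix' f.symm.toLinearMap
      val_inv := by
        rw [← LinearMap.toMatrix'_comp]
        have h1 : f.toLinearMap ∘ₗ f.symm.toLinearMap = LinearMap.id := by ext1 v; simp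
        rw [h1, LinearMap.toMatrix'_id]
      inv_val := by
        rw [← LinearMap.toMatrix'_comp]
        have h1 : f.symm.toLinearMap ∘ₗ f.toLinearMap = LinearMap.id := by ext1 v; simp
        rw [h1, LinearMap.toMatrix'_id] }
  refine ⟨u, fun x hx => ?_⟩
  have h1 : u.1 * r x = r' x * u.1 := by
    apply Matrix.toLin'.injective
    rw [Matrix.toLin'_mul, Matrix.toLin'_mul]
    refine LinearMap.ext fun v => ?_
    have h2 : Matrix.toLin' u.1 = f.toLinearMap := Matrix.toLin'_toMatrix' _
    rw [LinearMap.comp_apply, LinearMap.comp_apply, h2]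
    exact hf ⟨x, hx⟩ v
  rw [h1, mul_assoc]
  have h2 : u.1 * (u⁻¹).1 = 1 := Units.mul_inv u
  rw [h2, mul_one]

end Good

end Pool.Agent.Helper89.LG
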