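import Pool.Agent.Helper89.LG.Psd2
import Pool.Agent.Helper89.LG.Av
import Pool.Agent.Helper89.LG.Good

/-!
# The dimensions of the commutants and the Brauer characters of their conjugation representations
-/

set_option autoImplicit false
set_option linter.unusedSectionVars false
set_option linter.style.haveILetI false

open scoped BigOperators Classical
open Pool.Agent.H254R3.IN Pool.Agent.Y60 Module

noncomputable section

namespace Pool.Agent.Helper89.LG

section comm

variable {Γ : Type} [Group Γ] {k K : Type} [Field k] [Field K] (ι : k →+* K) {n : ℕ}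

/-- the matrices over `K` which commute with `r h`, `h ∈ H` -/
def CK (r : Γ → Matrix (Fin n) (Fin n) k) (H : Subgroup Γ) :
    Submodule K (Matrix (Fin n) (Fin n) K) where
  carrier := {a | ∀ h ∈ H, a * (r h).map ι = (r h).map ι * a}
  zero_mem' := fun h _ => by rw [zero_mul, mul_zero]
  add_mem' := fun {a b} ha hb h hh => by rw [add_mul, mul_add, ha h hh, hb h hh]
  smul_mem' := fun c a ha h hh => by rw [smul_mul_assoc, mul_smul_comm, ha h hh]

/-- the matrices over `K` which commute with `r ν`, `ν ∈ N`, and are multiplied with `μ` by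
conjugation with `r x` -/
def EK (r : Γ → Matrix (Fin n) (Fin n) k) (N : Subgroup Γ) (x : Γ) (μ : K) :
    Submodule K (Matrix (Fin n) (Fin n) K) where
  carrier := {a | a ∈ CK ι r N ∧ (r x).map ι * a = μ • (a * (r x).map ι)}
  zero_mem' := ⟨(CK ι r N).zero_mem, by rw [zero_mul, mul_zero, smul_zero]⟩
  add_mem' := fun {a b} ha hb => ⟨(CK ι r N).add_mem ha.1 hb.1, by
    rw [add_mul, mul_add, ha.2, hb.2, smul_add]⟩
  smul_mem' := fun c a ha => ⟨(CK ι r N).smul_mem c ha.1, by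
    rw [smul_mul_assoc, mul_smul_comm, ha.2, smul_comm]⟩

variable {ι}

theorem map_conj (u : (Matrix (Fin n) (Fin n) k)ˣ) :
    u.1.map ι * (u⁻¹).1.map ι = 1 ∧ (u⁻¹).1.map ι * u.1.map ι = 1 := by
  constructor
  · rw [← Matrix.map_mul, Units.mul_inv, Matrix.map_one _ (map_zero ι) (map_one ι)]
  · rw [← Matrix.map_mul, Units.inv_mul, Matrix.map_one _ (map_zero ι) (map_one ι)]

/-- conjugation of matrices -/
def cjE (u : (Matrix (Fin n) (Fin n) k)ˣ) : Matrix (Fin n) (Fin n) K ≃ₗ[K] Matrix (Fin n) (Fin n) K :=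
  LinearEquiv.ofLinearMap
    { toFun := fun a => u.1.map ι * a * (u⁻¹).1.map ι
      map_add' := fun a b => by rw [mul_add, add_mul]
      map_smul' := fun c a => by rw [mul_smul_comm, smul_mul_assoc]; rfl }
    { toFun := fun a => (u⁻¹).1.map ι * a * u.1.map ι
      map_add' := fun a b => by rw [mul_add, add_mul]
      map_smul' := fun c a => by rw [mul_smul_comm, smul_mul_assoc]; rfl }
    (by
      refine LinearMap.ext fun a => ?_
      change u.1.map ι * ((u⁻¹).1.map ι * a * u.1.map ι) * (u⁻¹).1.map ι = a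
      have h := map_conj (ι := ι) u
      calc _ = (u.1.map ι * (u⁻¹).1.map ι) * a * (u.1.map ι * (u⁻¹).1.map ι) := by
            simp only [mul_assoc]
        _ = a := by rw [h.1, one_mul, mul_one])
    (by
      refine LinearMap.ext fun a => ?_
      change (u⁻¹).1.map ι * (u.1.map ι * a * (u⁻¹).1.map ι) * u.1.map ι = a
      have h := map_conj (ι := ι) u
      calc _ = ((u⁻¹).1.map ι * u.1.map ι) * a * ((u⁻¹).1.map ι * u.1.map ι) := by
            simp only [mul_assoc]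
        _ = a := by rw [h.2, one_mul, mul_one])

theorem cjE_apply (u : (Matrix (Fin n) (Fin n) k)ˣ) (a : Matrix (Fin n) (Fin n) K) :
    cjE (ι := ι) u a = u.1.map ι * a * (u⁻¹).1.map ι := rfl

theorem map_eq_conj {r r' : Γ → Matrix (Fin n) (Fin n) k} {u : (Matrix (Fin n) (Fin n) k)ˣ} {x : Γ}
    (h : r' x = u.1 * r x * (u⁻¹).1) :
    (r' x).map ι = u.1.map ι * (r x).map ι * (u⁻¹).1.map ι := by
  rw [h, Matrix.map_mul, Matrix.map_mul]

theorem comm_conj {A B U V : Matrix (Fin n) (Fin n) K} (_ : U * V = 1) (h' : V * U = 1)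
    (a : Matrix (Fin n) (Fin n) K) (μ : K) (hB : B = U * A * V) :
    B * (U * a * V) = μ • ((U * a * V) * B) ↔ A * a = μ • (a * A) := by
  subst hB
  have e1 : U * A * V * (U * a * V) = U * (A * a) * V := by
    calc _ = U * A * (V * U) * a * V := by simp only [mul_assoc]
      _ = _ := by rw [h', mul_one]; simp only [mul_assoc]
  have e2 : U * a * V * (U * A * V) = U * (a * A) * V := by
    calc _ = U * a * (V * U) * A * V := by simp only [mul_assoc]
      _ = _ := by rw [h', mul_one]; simp only [mul_assoc]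
  rw [e1, e2]
  constructor
  · intro h1
    have h2 : V * (U * (A * a) * V) * U = V * (μ • (U * (a * A) * V)) * U := by rw [h1]
    have e3 : V * (U * (A * a) * V) * U = A * a := by
      calc _ = (V * U) * (A * a) * (V * U) := by simp only [mul_assoc]
        _ = _ := by rw [h', one_mul, mul_one]
    have e4 : V * (μ • (U * (a * A) * V)) * U = μ • (a * A) := by
      rw [mul_smul_comm, smul_mul_assoc]
      congr 1
      calc _ = (V * U) * (a * A) * (V * U) := by simp only [mul_assoc]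
        _ = _ := by rw [h', one_mul, mul_one]
    rw [e3, e4] at h2
    exact h2
  · intro h1
    rw [h1, mul_smul_comm, smul_mul_assoc]

theorem CK_conj {r r' : Γ → Matrix (Fin n) (Fin n) k} {u : (Matrix (Fin n) (Fin n) k)ˣ}
    {H : Subgroup Γ} (h : ∀ x ∈ H, r' x = u.1 * r x * (u⁻¹).1) (a : Matrix (Fin n) (Fin n) K) :
    cjE (ι := ι) u a ∈ CK ι r' H ↔ a ∈ CK ι r H := by
  have hu := map_conj (ι := ι) u
  constructor
  · intro h1 x hx
    have h2 := h1 x hx
    rw [cjE_apply] at h2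
    have h3 := (comm_conj hu.1 hu.2 a 1 (map_eq_conj (ι := ι) (h x hx))).1 (by
      rw [one_smul]; exact h2.symm)
    rw [one_smul] at h3
    exact h3.symm
  · intro h1 x hx
    have h3 := (comm_conj hu.1 hu.2 a 1 (map_eq_conj (ι := ι) (h x hx))).2 (by
      rw [one_smul]; exact (h1 x hx).symm)
    rw [one_smul] at h3
    rw [cjE_apply]
    exact h3.symm

theorem CK_finrank {r r' : Γ → Matrix (Fin n) (Fin n) k} {u : (Matrix (Fin n) (Fin n) k)ˣ}
    {H : Subgroup Γ} (h : ∀ x ∈ H, r' x = u.1 * r x * (u⁻¹).1) :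
    finrank K (CK ι r' H) = finrank K (CK ι r H) := by
  have h1 : (CK ι r H).map (cjE (ι := ι) u).toLinearMap = CK ι r' H := by
    ext a
    constructor
    · rintro ⟨b, hb, rfl⟩
      exact (CK_conj h b).2 hb
    · intro ha
      refine ⟨(cjE (ι := ι) u).symm a, ?_, LinearEquiv.apply_symm_apply _ _⟩
      apply (CK_conj (ι := ι) h _).1
      rw [LinearEquiv.apply_symm_apply]
      exact ha
  rw [← h1]
  exact (LinearEquiv.finrank_map_eq (cjE (ι := ι) u) (CK ι r H))

theorem EK_finrank {r r' : Γ → Matrix (Fin n) (Fin n) k} {u : (Matrix (Fin n) (Fin n) k)ˣ}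
    {N : Subgroup Γ} (h : ∀ x ∈ N, r' x = u.1 * r x * (u⁻¹).1) {x : Γ}
    (hx : r' x = u.1 * r x * (u⁻¹).1) (μ : K) :
    finrank K (EK ι r' N x μ) = finrank K (EK ι r N x μ) := by
  have hu := map_conj (ι := ι) u
  have key : ∀ a, cjE (ι := ι) u a ∈ EK ι r' N x μ ↔ a ∈ EK ι r N x μ := by
    intro a
    refine and_congr (CK_conj h a) ?_
    exact comm_conj hu.1 hu.2 a μ (map_eq_conj (ι := ι) hx)
  have h1 : (EK ι r N x μ).map (cjE (ι := ι) u).toLinearMap = EK ι r' N x μ := by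
    ext a
    constructor
    · rintro ⟨b, hb, rfl⟩
      exact (key b).2 hb
    · intro ha
      refine ⟨(cjE (ι := ι) u).symm a, ?_, LinearEquiv.apply_symm_apply _ _⟩
      apply (key _).1
      rw [LinearEquiv.apply_symm_apply]
      exact ha
  rw [← h1]
  exact (LinearEquiv.finrank_map_eq (cjE (ι := ι) u) (EK ι r N x μ))

variable {N X : Subgroup Γ} {P : Γ → Multiset k} {r : Γ → Matrix (Fin n) (Fin n) k}

theorem Good.map_mul' (h : Good N P X r) {x y : Γ} (hx : x ∈ X) (hy : y ∈ X) :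
    (r (x * y)).map ι = (r x).map ι * (r y).map ι := by
  rw [h.mul x hx y hy, Matrix.map_mul]

theorem Good.map_inv (h : Good N P X r) {x : Γ} (hx : x ∈ X) :
    (r x).map ι * (r x⁻¹).map ι = 1 ∧ (r x⁻¹).map ι * (r x).map ι = 1 := by
  constructor
  · rw [← Matrix.map_mul, h.inv hx, Matrix.map_one _ (map_zero ι) (map_one ι)]
  · rw [← Matrix.map_mul, h.inv' hx, Matrix.map_one _ (map_zero ι) (map_one ι)]

/-- the eigenspaces depend only on the coset -/
theorem EK_coset (h : Good N P X r) {x ν : Γ} (hx : x ∈ X) (hν : ν ∈ N) (μ : K) :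
    EK ι r N (x * ν) μ = EK ι r N x μ := by
  have hνX := h.le hν
  have h1 := h.map_mul' (ι := ι) hx hνX
  have h2 := h.map_inv (ι := ι) hνX
  ext a
  refine and_congr_right fun ha => ?_
  have h3 : a * (r ν).map ι = (r ν).map ι * a := ha ν hν
  rw [h1]
  have e1 : (r x).map ι * (r ν).map ι * a = ((r x).map ι * a) * (r ν).map ι := by
    rw [mul_assoc, ← h3, ← mul_assoc]
  have e2 : μ • (a * ((r x).map ι * (r ν).map ι)) = (μ • (a * (r x).map ι)) * (r ν).map ι := by
    rw [smul_mul_assoc, mul_assoc]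
  rw [e1, e2]
  constructor
  · intro h4
    have h5 := congrArg (· * (r ν⁻¹).map ι) h4
    simp only [mul_assoc] at h5
    rw [h2.1, mul_one, mul_one] at h5
    exact h5
  · intro h4
    rw [h4]

section rep

variable [N.Normal]

/-- conjugation -/
def cj (h : Good N P X r) : X →* Module.End K (CK ι r N) where
  toFun x :=
    { toFun := fun a => ⟨(r x).map ι * a.1 * (r (x : Γ)⁻¹).map ι, by
        intro ν hν
        have hx := x.2
        have hν' : (x : Γ)⁻¹ * ν * x ∈ N := by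
          have := ‹N.Normal›.conj_mem ν hν (x : Γ)⁻¹
          rwa [inv_inv] at this
        have h1 : (r (x : Γ)⁻¹).map ι * (r ν).map ι =
            (r ((x : Γ)⁻¹ * ν * x)).map ι * (r (x : Γ)⁻¹).map ι := by
          rw [← h.map_mul' (ι := ι) (X.inv_mem hx) (h.le hν),
            ← h.map_mul' (ι := ι) (h.le hν') (X.inv_mem hx)]
          congr 2
          group
        have h2 : (r x).map ι * (r ((x : Γ)⁻¹ * ν * x)).map ι = (r ν).map ι * (r x).map ι := by
          rw [← h.map_mul' (ι := ι) hx (h.le hν'), ← h.map_mul' (ι := ι) (h.le hν) hx]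
          congr 2
          group
        have h3 := a.2 _ hν'
        calc (r x).map ι * a.1 * (r (x : Γ)⁻¹).map ι * (r ν).map ι
            = (r x).map ι * (a.1 * (r ((x : Γ)⁻¹ * ν * x)).map ι) * (r (x : Γ)⁻¹).map ι := by
              rw [mul_assoc _ ((r (x : Γ)⁻¹).map ι), h1]
              simp only [mul_assoc]
          _ = ((r x).map ι * (r ((x : Γ)⁻¹ * ν * x)).map ι) * a.1 * (r (x : Γ)⁻¹).map ι := by
              rw [h3]
              simp only [mul_assoc]
          _ = _ := by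
              rw [h2]
              simp only [mul_assoc]⟩
      map_add' := fun a b => Subtype.ext (by
        change (r x).map ι * (a.1 + b.1) * (r (x : Γ)⁻¹).map ι = _
        rw [mul_add, add_mul]
        rfl)
      map_smul' := fun c a => Subtype.ext (by
        change (r x).map ι * (c • a.1) * (r (x : Γ)⁻¹).map ι = _
        rw [mul_smul_comm, smul_mul_assoc]
        rfl) }
  map_one' := by
    refine LinearMap.ext fun a => Subtype.ext ?_
    change (r ((1 : X) : Γ)).map ι * a.1 * (r ((1 : X) : Γ)⁻¹).map ι = a.1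
    rw [Subgroup.coe_one, inv_one, h.one, Matrix.map_one _ (map_zero ι) (map_one ι), one_mul,
      mul_one]
  map_mul' x y := by
    refine LinearMap.ext fun a => Subtype.ext ?_
    change (r ((x * y : X) : Γ)).map ι * a.1 * (r ((x * y : X) : Γ)⁻¹).map ι =
      (r x).map ι * ((r y).map ι * a.1 * (r (y : Γ)⁻¹).map ι) * (r (x : Γ)⁻¹).map ι
    rw [Subgroup.coe_mul, mul_inv_rev, h.map_mul' (ι := ι) x.2 y.2,
      h.map_mul' (ι := ι) (X.inv_mem y.2) (X.inv_mem x.2)]
    simp only [mul_assoc]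

theorem cj_apply (h : Good N P X r) (x : X) (a : CK ι r N) :
    ((cj h x a : CK ι r N) : Matrix (Fin n) (Fin n) K) =
      (r x).map ι * a.1 * (r (x : Γ)⁻¹).map ι := rfl

theorem cj_N (h : Good N P X r) (x : X) (hx : (x : Γ) ∈ N) : cj (ι := ι) h x = 1 := by
  refine LinearMap.ext fun a => Subtype.ext ?_
  rw [cj_apply]
  change _ = a.1
  rw [← a.2 x hx, mul_assoc, (h.map_inv (ι := ι) (h.le hx)).1, mul_one]

theorem cj_coset (h : Good N P X r) (x y : X) (hxy : (x : Γ)⁻¹ * y ∈ N) :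
    cj (ι := ι) h x = cj h y := by
  have h1 : y = x * (x⁻¹ * y) := by group
  rw [h1, map_mul, cj_N h (x⁻¹ * y) hxy, mul_one]

theorem cj_eigen (h : Good N P X r) (x : X) (μ : K) :
    finrank K (Module.End.eigenspace (cj (ι := ι) h x) μ) = finrank K (EK ι r N x μ) := by
  have h1 : (Module.End.eigenspace (cj (ι := ι) h x) μ).map (CK ι r N).subtype = EK ι r N x μ := by
    have h2 := h.map_inv (ι := ι) x.2
    ext a
    constructor
    · rintro ⟨b, hb, rfl⟩
      refine ⟨b.2, ?_⟩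
      have h3 : cj (ι := ι) h x b = μ • b := Module.End.mem_eigenspace_iff.1 hb
      have h4 := congrArg Subtype.val h3
      rw [cj_apply] at h4
      have h5 : (μ • b : CK ι r N).1 = μ • b.1 := rfl
      rw [h5] at h4
      change (r x).map ι * b.1 = μ • (b.1 * (r x).map ι)
      rw [← smul_mul_assoc, ← h4, mul_assoc _ ((r (x : Γ)⁻¹).map ι), h2.2, mul_one]
    · rintro ⟨ha, ha'⟩
      refine ⟨⟨a, ha⟩, ?_, rfl⟩
      change (⟨a, ha⟩ : CK ι r N) ∈ Module.End.eigenspace (cj (ι := ι) h x) μ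
      rw [Module.End.mem_eigenspace_iff]
      apply Subtype.ext
      rw [cj_apply]
      change (r x).map ι * a * (r (x : Γ)⁻¹).map ι = μ • a
      rw [ha', smul_mul_assoc, mul_assoc, h2.1, mul_one]
  rw [← h1]
  exact LinearEquiv.finrank_eq (Submodule.equivSubtypeMap (CK ι r N)
    (Module.End.eigenspace (cj (ι := ι) h x) μ))

end rep

end comm

section coh

variable {O : ValuationSubring ℂ} {p : ℕ} [Fact p.Prime] (hp : (p : ℂ) ∈ O.nonunits)
  {Γ : Type} [Group Γ] {k : Type} [Field k] (ι : k →+* RF O) {n : ℕ}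
  {N : Subgroup Γ} [N.Normal] {P : Γ → Multiset k} {r : Γ → Matrix (Fin n) (Fin n) k}

/-- the inverse image of a subgroup of the quotient -/
abbrev cm (N : Subgroup Γ) [N.Normal] (Y : Subgroup (Γ ⧸ N)) : Subgroup Γ :=
  Y.comap (QuotientGroup.mk' N)

theorem le_cm (Y : Subgroup (Γ ⧸ N)) : N ≤ cm N Y := by
  intro ν hν
  rw [Subgroup.mem_comap, show (QuotientGroup.mk' N) ν = 1 from (QuotientGroup.eq_one_iff ν).2 hν]
  exact Y.one_mem

theorem out_mem {Y : Subgroup (Γ ⧸ N)} {y : Γ ⧸ N} (hy : y ∈ Y) : y.out ∈ cm N Y := by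
  rw [Subgroup.mem_comap]
  have h1 : (QuotientGroup.mk' N) y.out = y := QuotientGroup.out_eq' y
  rwa [h1]

theorem cm_mono {Y Z : Subgroup (Γ ⧸ N)} (h : Y ≤ Z) : cm N Y ≤ cm N Z := Subgroup.comap_mono h

/-- the conjugation representation of a subgroup of the quotient -/
def sg {Y : Subgroup (Γ ⧸ N)} (h : Good N P (cm N Y) r) : Representation (RF O) Y (CK ι r N) where
  toFun y := cj h ⟨(y : Γ ⧸ N).out, out_mem y.2⟩
  map_one' := cj_N h _ (by
    change ((1 : Y) : Γ ⧸ N).out ∈ N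
    rw [Subgroup.coe_one, ← QuotientGroup.eq_one_iff]
    exact QuotientGroup.out_eq' _)
  map_mul' x y := by
    rw [← map_mul]
    apply cj_coset
    change ((x * y : Y) : Γ ⧸ N).out⁻¹ * ((x : Γ ⧸ N).out * (y : Γ ⧸ N).out) ∈ N
    rw [← QuotientGroup.eq]
    rw [QuotientGroup.mk_mul]
    have h1 : ∀ z : Γ ⧸ N, ((z.out : Γ) : Γ ⧸ N) = z := QuotientGroup.out_eq'
    rw [h1, h1, h1, Subgroup.coe_mul]

/-- the Brauer character -/
def bC (r : Γ → Matrix (Fin n) (Fin n) k) (y : Γ ⧸ N) : ℂ :=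
  ∑ ζ ∈ Polynomial.nthRootsFinset (orderOf y) (1 : ℂ),
    (finrank (RF O) (EK ι r N y.out (red O ζ)) : ℂ) * ζ

variable {ι}

theorem brauer_sg {Y : Subgroup (Γ ⧸ N)} (h : Good N P (cm N Y) r) (y : Y)
    (hy : ¬ p ∣ orderOf (y : Γ ⧸ N)) : brauerChar p O (sg ι h) y = bC ι r (y : Γ ⧸ N) := by
  have h1 : orderOf y = orderOf (y : Γ ⧸ N) := (Subgroup.orderOf_coe y).symm
  rw [brauerChar, h1, if_neg hy, bC]
  refine Finset.sum_congr rfl fun ζ _ => ?_
  rw [← cj_eigen h ⟨(y : Γ ⧸ N).out, out_mem y.2⟩]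
  rfl

/-- the fixed points are the commutants -/
theorem fix_sg {Y H : Subgroup (Γ ⧸ N)} (hH : H ≤ Y) [Fintype Y] (h : Good N P (cm N Y) r) :
    finrank (RF O) (fix (sg ι h) (H.subgroupOf Y)) = finrank (RF O) (CK ι r (cm N H)) := by
  have h1 : (fix (sg ι h) (H.subgroupOf Y)).map (CK ι r N).subtype = CK ι r (cm N H) := by
    ext a
    constructor
    · rintro ⟨b, hb, rfl⟩ x hx
      have hx' : ((x : Γ) : Γ ⧸ N) ∈ H := hx
      have h2 := hb ⟨((x : Γ) : Γ ⧸ N), hH hx'⟩ hx'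
      have hxY : x ∈ cm N Y := cm_mono hH hx
      have h3 : sg ι h ⟨((x : Γ) : Γ ⧸ N), hH hx'⟩ = cj h ⟨x, hxY⟩ := by
        apply cj_coset
        change (((x : Γ) : Γ ⧸ N)).out⁻¹ * x ∈ N
        rw [← QuotientGroup.eq]
        exact QuotientGroup.out_eq' _
      rw [h3] at h2
      have h4 := congrArg Subtype.val h2
      rw [cj_apply] at h4
      have h5 := h.map_inv (ι := ι) hxY
      change b.1 * (r x).map ι = (r x).map ι * b.1
      have h6 : (r x).map ι * b.1 * (r x⁻¹).map ι = b.1 := h4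
      conv_lhs => rw [← h6]
      rw [mul_assoc, h5.2, mul_one]
    · intro ha
      have haN : a ∈ CK ι r N := fun ν hν => ha ν (le_cm H hν)
      refine ⟨⟨a, haN⟩, ?_, rfl⟩
      intro y hy
      have hyY : (y : Γ ⧸ N).out ∈ cm N Y := out_mem y.2
      have hyH : (y : Γ ⧸ N).out ∈ cm N H := out_mem hy
      apply Subtype.ext
      change (cj h ⟨(y : Γ ⧸ N).out, hyY⟩ ⟨a, haN⟩ : CK ι r N).1 = a
      rw [cj_apply]
      change (r (y : Γ ⧸ N).out).map ι * a * (r ((y : Γ ⧸ N).out)⁻¹).map ι = a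
      rw [← ha _ hyH, mul_assoc, (h.map_inv (ι := ι) hyY).1, mul_one]
  rw [← h1]
  exact LinearEquiv.finrank_eq (Submodule.equivSubtypeMap (CK ι r N) _)

section sum

variable {Q : Type} [Group Q] [Fintype Q]

theorem sum_if {M : Type} [AddCommMonoid M] (H : Subgroup Q) (F : Q → M) :
    ∑ h : Q, (if h ∈ H then F h else 0) = ∑ h : H, F h := by
  rw [← Finset.sum_filter]
  exact Finset.sum_subtype _ (by simp) _

theorem av_eq (H : Subgroup Q) (F : Q → ℝ) : av H F = (Nat.card H : ℝ)⁻¹ * ∑ h : H, F h := by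
  rw [av, sum_if]

theorem avg_re {Y H : Subgroup Q} [hY : Fintype Y] (hH : H ≤ Y) (F : Q → ℂ) (f : Y → ℂ)
    (hf : ∀ y : Y, f y = F y) :
    (avg (H.subgroupOf Y) f).re = av H (fun h => (F h).re) := by
  have hc : Nat.card (H.subgroupOf Y) = Nat.card H :=
    Nat.card_congr (Subgroup.subgroupOfEquivOfLe hH).toEquiv
  rw [avg, av_eq, sum_if, hc]
  have h1 : ∑ h : H.subgroupOf Y, f h = ∑ h : H, F h := by
    refine Fintype.sum_equiv (Subgroup.subgroupOfEquivOfLe hH).toEquiv _ _ fun h => ?_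
    rw [hf]
    rfl
  rw [h1]
  have h2 : ((Nat.card H : ℂ))⁻¹ = (((Nat.card H : ℝ)⁻¹ : ℝ) : ℂ) := by push_cast; rfl
  rw [h2, Complex.re_ofReal_mul, Complex.re_sum]

end sum

variable [Finite (Γ ⧸ N)] (hQ : ¬ p ∣ Nat.card (Γ ⧸ N))

theorem not_dvd_orderOf (hQ : ¬ p ∣ Nat.card (Γ ⧸ N)) (y : Γ ⧸ N) : ¬ p ∣ orderOf y :=
  fun h => hQ (h.trans (orderOf_dvd_natCard y))

theorem not_dvd_sub (hQ : ¬ p ∣ Nat.card (Γ ⧸ N)) (Y : Subgroup (Γ ⧸ N)) : ¬ p ∣ Nat.card Y :=
  fun h => hQ (h.trans (Subgroup.card_subgroup_dvd_card Y))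

include hp hQ

/-- the dimension of the commutant is an average -/
theorem dim_av [Fintype (Γ ⧸ N)] {Y H : Subgroup (Γ ⧸ N)} (hH : H ≤ Y)
    (h : Good N P (cm N Y) r) :
    (finrank (RF O) (CK ι r (cm N H)) : ℝ) = av H (fun y => (bC ι r y).re) := by
  haveI : Fintype Y := Fintype.ofFinite _
  let M : Md O Y := ⟨CK ι r N, sg ι h⟩
  have h1 := fix_dim hp (not_dvd_sub hQ Y) M (H.subgroupOf Y)
  have h2 := avg_re hH (bC ι r) (brauerChar p O M.σ) (fun y =>
    brauer_sg h y (not_dvd_orderOf hQ _))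
  rw [← h2, ← h1, ← fix_sg hH h]
  exact (Complex.natCast_re _).symm

/-- the general inequality -/
theorem psd_av [Fintype (Γ ⧸ N)] {Y H : Subgroup (Γ ⧸ N)} (hH : H ≤ Y)
    (h : Good N P (cm N Y) r) {J : Type} [Fintype J] (w : J → ℝ) (z : J → Γ ⧸ N)
    (hz : ∀ i, z i ∈ Y) :
    (∑ i, w i) ^ 2 * (finrank (RF O) (CK ι r (cm N Y)) : ℝ) ≤
      ∑ i, ∑ j, w i * w j * av H (fun y => (bC ι r ((z i)⁻¹ * z j * y)).re) := by
  haveI : Fintype Y := Fintype.ofFinite _
  let M : Md O Y := ⟨CK ι r N, sg ι h⟩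
  have hb : ∀ y : Y, brauerChar p O M.σ y = bC ι r (y : Γ ⧸ N) := fun y =>
    brauer_sg h y (not_dvd_orderOf hQ _)
  have hcl : ∀ g y : Y, brauerChar p O M.σ (y * g * y⁻¹) = brauerChar p O M.σ g :=
    fun g y => brauer_class M.σ g y
  let c : ℝ := Nat.card H
  have hc : c ≠ 0 := by
    have : (Nat.card H : ℝ) ≠ 0 := by exact_mod_cast Nat.card_pos.ne'
    exact this
  let y : J × H → Y := fun a => ⟨z a.1 * a.2, Y.mul_mem (hz a.1) (hH a.2.2)⟩
  have h1 := psd hp (not_dvd_sub hQ Y) M (fun a : J × H => w a.1 * c⁻¹) y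
  have h2 : finrank (RF O) (fix M.σ ⊤) = finrank (RF O) (CK ι r (cm N Y)) := by
    rw [← fix_sg le_rfl h, Subgroup.subgroupOf_self]
  have h3 : ∑ a : J × H, w a.1 * c⁻¹ = ∑ i, w i := by
    rw [Fintype.sum_prod_type]
    refine Finset.sum_congr rfl fun i _ => ?_
    change ∑ _ : H, w i * c⁻¹ = w i
    rw [Finset.sum_const, Finset.card_univ, nsmul_eq_mul, ← Nat.card_eq_fintype_card]
    change c * (w i * c⁻¹) = w i
    field_simp
  rw [h2, h3] at h1
  refine h1.trans (le_of_eq ?_)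
  rw [Complex.re_sum, Fintype.sum_prod_type]
  refine Finset.sum_congr rfl fun i _ => ?_
  have h4 : ∀ x : H, (∑ b : J × H, (((w (i, x).1 * c⁻¹) * (w b.1 * c⁻¹) : ℝ) : ℂ) *
      brauerChar p O M.σ ((y (i, x))⁻¹ * y b)).re =
      c⁻¹ * ∑ j, w i * w j * av H (fun y => (bC ι r ((z i)⁻¹ * z j * y)).re) := by
    intro x
    rw [Complex.re_sum, Fintype.sum_prod_type, Finset.mul_sum]
    refine Finset.sum_congr rfl fun j _ => ?_
    rw [av_eq]
    have h5 : ∀ x' : H, ((((w (i, x).1 * c⁻¹) * (w (j, x').1 * c⁻¹) : ℝ) : ℂ) *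
        brauerChar p O M.σ ((y (i, x))⁻¹ * y (j, x'))).re =
        (w i * c⁻¹) * (w j * c⁻¹) *
          (bC ι r ((z i)⁻¹ * z j * ((x' * x⁻¹ : H) : Γ ⧸ N))).re := by
      intro x'
      rw [Complex.re_ofReal_mul]
      congr 2
      let xY : Y := ⟨x, hH x.2⟩
      have h6 : (y (i, x))⁻¹ * y (j, x') =
          xY⁻¹ * (⟨(z i)⁻¹ * z j * ((x' * x⁻¹ : H) : Γ ⧸ N), Y.mul_mem (Y.mul_mem
            (Y.inv_mem (hz i)) (hz j)) (hH (x' * x⁻¹).2)⟩ : Y) * xY⁻¹⁻¹ := by
        apply Subtype.ext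
        change (z i * x)⁻¹ * (z j * x') =
          (x : Γ ⧸ N)⁻¹ * ((z i)⁻¹ * z j * (x' * (x : Γ ⧸ N)⁻¹)) * (x : Γ ⧸ N)⁻¹⁻¹
        group
      rw [h6, hcl, hb]
    rw [Finset.sum_congr rfl fun x' _ => h5 x', ← Finset.mul_sum]
    have h7 : ∑ x' : H, (bC ι r ((z i)⁻¹ * z j * ((x' * x⁻¹ : H) : Γ ⧸ N))).re =
        ∑ x' : H, (bC ι r ((z i)⁻¹ * z j * (x' : Γ ⧸ N))).re :=
      Fintype.sum_equiv (Equiv.mulRight x⁻¹) _ _ fun x' => rfl
    rw [h7]
    change (w i * c⁻¹) * (w j * c⁻¹) * _ = c⁻¹ * (w i * w j * (c⁻¹ * _))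
    ring
  rw [Finset.sum_congr rfl fun x _ => h4 x, Finset.sum_const, Finset.card_univ, nsmul_eq_mul,
    ← Nat.card_eq_fintype_card]
  change c * (c⁻¹ * _) = _
  rw [mul_inv_cancel_left₀ hc]

end coh

end Pool.Agent.Helper89.LG
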