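import Pool.Agent.Helper89.LG.Coh

/-!
# Gluing representations along families of subgroups which contain any few elements
-/

set_option autoImplicit false
set_option linter.unusedSectionVars false
set_option linter.style.haveILetI false

open scoped BigOperators Classical
open Pool.Agent.H254R3.IN Pool.Agent.Y60 Module

noncomputable section

namespace Pool.Agent.Helper89.LG

variable {O : ValuationSubring ℂ} {p : ℕ} [Fact p.Prime] (hp : (p : ℂ) ∈ O.nonunits)
  {Γ : Type} [Group Γ] {k : Type} [Field k] [IsAlgClosed k] (ι : k →+* RF O) {n : ℕ}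
  (N : Subgroup Γ) [N.Normal] (P : Γ → Multiset k)

/-- there is a good function on the inverse image of `Y` -/
def Cov (n : ℕ) (Y : Subgroup (Γ ⧸ N)) : Prop :=
  ∃ r : Γ → Matrix (Fin n) (Fin n) k, Good N P (cm N Y) r

/-- a good function -/
def rr (n : ℕ) (Y : Subgroup (Γ ⧸ N)) : Γ → Matrix (Fin n) (Fin n) k :=
  if h : Cov N P n Y then h.choose else fun _ => 1

variable {N P}

theorem rr_good {Y : Subgroup (Γ ⧸ N)} (h : Cov N P n Y) : Good N P (cm N Y) (rr N P n Y) := by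
  rw [rr, dif_pos h]
  exact h.choose_spec

variable (N P)

/-- the dimension of the commutant -/
def DD (n : ℕ) (Y : Subgroup (Γ ⧸ N)) : ℕ := finrank (RF O) (CK ι (rr N P n Y) (cm N Y))

/-- the value of the Brauer character -/
def bb (n : ℕ) (y : Γ ⧸ N) : ℝ := (bC ι (rr N P n (Subgroup.zpowers y)) y).re

variable {N P}

section facts

variable [N.FiniteIndex] (hN : (N.index : k) ≠ 0)

include hN

theorem DD_eq {Y H : Subgroup (Γ ⧸ N)} (hH : H ≤ Y) {r : Γ → Matrix (Fin n) (Fin n) k}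
    (h : Good N P (cm N Y) r) : DD ι N P n H = finrank (RF O) (CK ι r (cm N H)) := by
  have h1 : Good N P (cm N H) r := h.mono (le_cm H) (cm_mono hH)
  obtain ⟨u, hu⟩ := h1.exists_conj hN (rr_good ⟨r, h1⟩)
  exact CK_finrank hu

theorem bC_eq {Y Y' : Subgroup (Γ ⧸ N)} {r r' : Γ → Matrix (Fin n) (Fin n) k}
    (h : Good N P (cm N Y) r) (h' : Good N P (cm N Y') r') {y : Γ ⧸ N} (hy : y ∈ Y) (hy' : y ∈ Y') :
    bC ι r' y = bC ι r y := by
  have h1 : Good N P (cm N (Subgroup.zpowers y)) r := h.mono (le_cm _) (cm_mono (by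
    rwa [Subgroup.zpowers_le]))
  have h2 : Good N P (cm N (Subgroup.zpowers y)) r' := h'.mono (le_cm _) (cm_mono (by
    rwa [Subgroup.zpowers_le]))
  obtain ⟨u, hu⟩ := h1.exists_conj hN h2
  unfold bC
  refine Finset.sum_congr rfl fun ζ _ => ?_
  rw [EK_finrank (fun x hx => hu x (le_cm _ hx)) (hu _ (out_mem (Subgroup.mem_zpowers y)))]

theorem bb_eq {Y : Subgroup (Γ ⧸ N)} {r : Γ → Matrix (Fin n) (Fin n) k}
    (h : Good N P (cm N Y) r) {y : Γ ⧸ N} (hy : y ∈ Y) : bb ι N P n y = (bC ι r y).re := by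
  have h1 : Good N P (cm N (Subgroup.zpowers y)) r := h.mono (le_cm _) (cm_mono (by
    rwa [Subgroup.zpowers_le]))
  rw [bb, bC_eq ι hN h (rr_good ⟨r, h1⟩) hy (Subgroup.mem_zpowers y)]

theorem av_bb [Fintype (Γ ⧸ N)] {Y H : Subgroup (Γ ⧸ N)} (hH : H ≤ Y)
    {r : Γ → Matrix (Fin n) (Fin n) k}
    (h : Good N P (cm N Y) r) {g : Γ ⧸ N} (hg : g ∈ Y) :
    av H (fun y => bb ι N P n (g * y)) = av H (fun y => (bC ι r (g * y)).re) := by
  rw [av_eq, av_eq]
  congr 1
  refine Finset.sum_congr rfl fun y _ => ?_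
  exact bb_eq ι hN h (Y.mul_mem hg (hH y.2))

end facts

/-- the hypothesis on the family -/
def Few (N : Subgroup Γ) (P : Γ → Multiset k) (n m : ℕ) : Prop :=
  ∀ s : Finset Γ, s.card ≤ m → ∃ (X : Subgroup Γ) (r : Γ → Matrix (Fin n) (Fin n) k),
    Good N P X r ∧ ∀ g ∈ s, g ∈ X

theorem Few.cov {m : ℕ} (h : Few N P n m) (s : Finset (Γ ⧸ N)) (hs : s.card ≤ m) :
    Cov N P n (Subgroup.closure (s : Set (Γ ⧸ N))) := by
  obtain ⟨X, r, h1, h2⟩ := h (s.image fun y => y.out) (Finset.card_image_le.trans hs)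
  refine ⟨r, h1.mono (le_cm _) ?_⟩
  have h3 : Subgroup.closure (s : Set (Γ ⧸ N)) ≤ X.map (QuotientGroup.mk' N) := by
    rw [Subgroup.closure_le]
    intro y hy
    exact ⟨y.out, h2 _ (Finset.mem_image_of_mem _ hy), QuotientGroup.out_eq' y⟩
  intro x hx
  obtain ⟨z, hz, hzx⟩ := h3 (Subgroup.mem_comap.1 hx)
  have h4 : z⁻¹ * x ∈ N := QuotientGroup.eq.1 hzx
  have h5 := X.mul_mem hz (h1.le h4)
  rwa [mul_inv_cancel_left] at h5

theorem one_le_CK (hn : 0 < n) (r : Γ → Matrix (Fin n) (Fin n) k) (H : Subgroup Γ) :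
    1 ≤ finrank (RF O) (CK ι r H) := by
  have h1 : (1 : Matrix (Fin n) (Fin n) (RF O)) ∈ CK ι r H := fun x _ => by rw [one_mul, mul_one]
  haveI : Nonempty (Fin n) := ⟨⟨0, hn⟩⟩
  rw [Nat.one_le_iff_ne_zero]
  intro h0
  have h2 : CK ι r H = ⊥ := Submodule.finrank_eq_zero.1 h0
  rw [h2, Submodule.mem_bot] at h1
  exact one_ne_zero h1

/-- the data of the averaging argument -/
def dat [Fintype (Γ ⧸ N)] {q m : ℕ} (hn : 0 < n) (hq : 2 ≤ q)
    (hcop : ∀ i, 0 < i → i < q → (Nat.card (Γ ⧸ N)).Coprime i) [N.FiniteIndex]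
    (hN : (N.index : k) ≠ 0) (hp : (p : ℂ) ∈ O.nonunits) (hQ : ¬ p ∣ Nat.card (Γ ⧸ N))
    (hF : Few N P n m) : Data (Γ ⧸ N) q m where
  cov := Cov N P n
  D := DD ι N P n
  b := bb ι N P n
  q_pos := hq
  coprime := hcop
  gen s hs := hF.cov s hs
  pos H _ := one_le_CK ι hn _ _
  dim H Y hY hH := by
    obtain ⟨r, hr⟩ := hY
    rw [DD_eq ι hN hH hr, dim_av (ι := ι) hp hQ hH hr]
    have := av_bb ι hN hH hr Y.one_mem
    simp only [one_mul] at this
    exact this.symm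
  ineq H Y hY hH g hg := by
    obtain ⟨r, hr⟩ := hY
    have h1 := psd_av (ι := ι) hp hQ hH hr (J := Fin q) (fun _ => 1) (fun i => g ^ (i : ℕ))
      (fun i => Y.pow_mem hg _)
    rw [DD_eq ι hN le_rfl hr]
    have h2 : (∑ _ : Fin q, (1 : ℝ)) = q := by simp
    rw [h2] at h1
    refine h1.trans (le_of_eq ?_)
    rw [Finset.sum_range (fun i => ∑ j ∈ Finset.range q,
      av H fun h => bb ι N P n ((g ^ i)⁻¹ * g ^ j * h))]
    refine Finset.sum_congr rfl fun i _ => ?_
    rw [Finset.sum_range (fun j => av H fun h => bb ι N P n ((g ^ (i : ℕ))⁻¹ * g ^ j * h))]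
    refine Finset.sum_congr rfl fun j _ => ?_
    rw [one_mul, one_mul]
    exact (av_bb ι hN hH hr (Y.mul_mem (Y.inv_mem (Y.pow_mem hg _)) (Y.pow_mem hg _))).symm
  low H Y hY hH g hg := by
    obtain ⟨r, hr⟩ := hY
    have h1 := psd_av (ι := ι) hp hQ hH hr (J := Fin 2) ![1, -1] ![1, g]
      (by
        intro i
        fin_cases i
        · exact Y.one_mem
        · exact hg)
    have hdim := dim_av (ι := ι) hp hQ hH hr
    rw [DD_eq ι hN hH hr, av_bb ι hN hH hr hg, av_bb ι hN hH hr (Y.inv_mem hg)]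
    simp only [Fin.sum_univ_two, Matrix.cons_val_zero, Matrix.cons_val_one, inv_one, one_mul,
      mul_one, inv_mul_cancel] at h1
    rw [← hdim] at h1
    norm_num at h1
    linarith

theorem clos_ins {Q : Type} [Group Q] [DecidableEq Q] (s : Finset Q) (g : Q) :
    Subgroup.closure ((insert g s : Finset Q) : Set Q) =
      Subgroup.closure (s : Set Q) ⊔ Subgroup.zpowers g := by
  rw [Finset.coe_insert, Set.insert_eq, Subgroup.closure_union, sup_comm,
    Subgroup.zpowers_eq_closure]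

/-- **gluing** -/
theorem glue [N.FiniteIndex] {q m : ℕ} (hn : 0 < n) (hm : 2 ≤ m) (hq : 2 ≤ q)
    (hcop : ∀ i, 0 < i → i < q → N.index.Coprime i)
    (hN : (N.index : k) ≠ 0) (hp : (p : ℂ) ∈ O.nonunits) (hQ : ¬ p ∣ N.index)
    (hF : Few N P n m)
    (hd : ∀ (X : Subgroup Γ) (r : Γ → Matrix (Fin n) (Fin n) k), Good N P X r →
      finrank (RF O) (CK ι r N) ≤ q ^ (m - 2)) :
    ∃ R : Γ → Matrix (Fin n) (Fin n) k, Good N P ⊤ R := by
  haveI : Finite (Γ ⧸ N) := Subgroup.finite_quotient_of_finiteIndex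
  haveI : Fintype (Γ ⧸ N) := Fintype.ofFinite _
  let S := dat ι hn hq hcop hN hp hQ hF
  have hbot : S.D ⊥ ≤ q ^ (m - 2) := by
    obtain ⟨X, r, hr, -⟩ := hF ∅ (by simp)
    have hb : cm N ⊥ = N := by
      ext x
      rw [Subgroup.mem_comap, Subgroup.mem_bot]
      exact QuotientGroup.eq_one_iff x
    have h1 : Good N P (cm N ⊥) r := by
      rw [hb]
      exact hr.mono le_rfl hr.le
    have h2 : S.D ⊥ = finrank (RF O) (CK ι r (cm N ⊥)) := DD_eq ι hN le_rfl h1
    rw [h2, hb]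
    exact hd X r hr
  obtain ⟨t, ht, hst⟩ := S.stationary hm hbot
  set H := Subgroup.closure (t : Set (Γ ⧸ N)) with hH
  have hcH : Cov N P n H := hF.cov t (by omega)
  obtain ⟨r₀, h₀⟩ := hcH
  -- adjusting a good function
  have hadj : ∀ {Y : Subgroup (Γ ⧸ N)}, H ≤ Y → Cov N P n Y →
      ∃ r : Γ → Matrix (Fin n) (Fin n) k, Good N P (cm N Y) r ∧ ∀ x ∈ cm N H, r x = r₀ x := by
    rintro Y hY ⟨r, hr⟩
    have h1 : Good N P (cm N H) r := hr.mono (le_cm H) (cm_mono hY)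
    obtain ⟨u, hu⟩ := h1.exists_conj hN h₀
    exact ⟨_, hr.conj u, fun x hx => (hu x hx).symm⟩
  -- the groups generated by `H` and one element
  let Z : Γ → Subgroup (Γ ⧸ N) := fun g => H ⊔ Subgroup.zpowers (g : Γ ⧸ N)
  have hHZ : ∀ g, H ≤ Z g := fun g => le_sup_left
  have hgZ : ∀ g, g ∈ cm N (Z g) := fun g => by
    change ((g : Γ) : Γ ⧸ N) ∈ Z g
    exact le_sup_right (a := H) (Subgroup.mem_zpowers _)
  have hcZ : ∀ g, Cov N P n (Z g) := by
    intro g
    have h1 := hF.cov (insert (g : Γ ⧸ N) t) ((Finset.card_insert_le _ _).trans (by omega))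
    rwa [clos_ins] at h1
  choose r hr hr₀ using fun g => hadj (hHZ g) (hcZ g)
  -- uniqueness
  have huniq : ∀ (g : Γ) (r' : Γ → Matrix (Fin n) (Fin n) k), Good N P (cm N (Z g)) r' →
      (∀ x ∈ cm N H, r' x = r₀ x) → ∀ x ∈ cm N (Z g), r' x = r g x := by
    intro g r' h' h'₀ x hx
    obtain ⟨u, hu⟩ := (hr g).exists_conj hN h'
    -- `u` commutes with `r g` on `H`
    have hcomm : u.1.map ι ∈ CK ι (r g) (cm N H) := by
      intro y hy
      have h1 := hu y (cm_mono (hHZ g) hy)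
      rw [h'₀ y hy, ← hr₀ g y hy] at h1
      have h2 : r g y * u.1 = u.1 * r g y := by
        conv_lhs => rw [h1]
        rw [mul_assoc, Units.inv_mul, mul_one]
      rw [← Matrix.map_mul, ← Matrix.map_mul, h2]
    have hle : CK ι (r g) (cm N (Z g)) ≤ CK ι (r g) (cm N H) := fun a ha y hy =>
      ha y (cm_mono (hHZ g) hy)
    have hdim : finrank (RF O) (CK ι (r g) (cm N H)) ≤ finrank (RF O) (CK ι (r g) (cm N (Z g))) := by
      have h1 := hst (g : Γ ⧸ N)
      have h2 : S.D H = finrank (RF O) (CK ι (r g) (cm N H)) := DD_eq ι hN (hHZ g) (hr g)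
      have h3 : S.D (H ⊔ Subgroup.zpowers (g : Γ ⧸ N)) =
          finrank (RF O) (CK ι (r g) (cm N (Z g))) := DD_eq ι hN le_rfl (hr g)
      rw [h2, h3] at h1
      exact h1
    have heq : CK ι (r g) (cm N (Z g)) = CK ι (r g) (cm N H) := Submodule.eq_of_le_of_finrank_le
      hle hdim
    rw [← heq] at hcomm
    have h1 := hcomm x hx
    have h2 : u.1 * r g x = r g x * u.1 := by
      have h3 : (u.1 * r g x).map ι = (r g x * u.1).map ι := by
        rw [Matrix.map_mul, Matrix.map_mul]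
        exact h1
      exact Matrix.map_injective ι.injective h3
    rw [hu x hx, h2, mul_assoc, Units.mul_inv, mul_one]
  let R : Γ → Matrix (Fin n) (Fin n) k := fun g => r g g
  have hR₀ : ∀ x ∈ cm N H, R x = r₀ x := fun x hx => hr₀ x x hx
  refine ⟨R, le_top, (hr 1).one, fun x _ y _ => ?_, fun x _ => (hr x).roots x (hgZ x), ?_⟩
  · -- two elements
    have hc : Cov N P n (H ⊔ Subgroup.zpowers (x : Γ ⧸ N) ⊔ Subgroup.zpowers (y : Γ ⧸ N)) := by
      have h1 := hF.cov (insert (y : Γ ⧸ N) (insert (x : Γ ⧸ N) t))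
        ((Finset.card_insert_le _ _).trans (by
          have := Finset.card_insert_le (x : Γ ⧸ N) t
          omega))
      rwa [clos_ins, clos_ins] at h1
    set Y := H ⊔ Subgroup.zpowers (x : Γ ⧸ N) ⊔ Subgroup.zpowers (y : Γ ⧸ N) with hY
    obtain ⟨r', h', h'₀⟩ := hadj (le_sup_left.trans le_sup_left : H ≤ Y) hc
    have hxY : Z x ≤ Y := le_sup_left
    have hyY : Z y ≤ Y := sup_le (le_sup_left.trans le_sup_left) le_sup_right
    have hx : x ∈ cm N Y := cm_mono hxY (hgZ x)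
    have hy : y ∈ cm N Y := cm_mono hyY (hgZ y)
    have hxyY : Z (x * y) ≤ Y := by
      refine sup_le (le_sup_left.trans le_sup_left) ?_
      rw [Subgroup.zpowers_le]
      exact (cm N Y).mul_mem hx hy
    have key : ∀ g, Z g ≤ Y → r' g = R g := fun g hg =>
      huniq g r' (h'.mono (le_cm _) (cm_mono hg)) h'₀ g (hgZ g)
    change R (x * y) = R x * R y
    rw [← key _ hxyY, ← key _ hxY, ← key _ hyY]
    exact h'.mul x hx y hy
  · -- semisimple on `N`
    have hRN : ∀ ν ∈ N, R ν = r₀ ν := fun ν hν => hR₀ ν (le_cm H hν)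
    have hst' : ∀ W, StableOn N R W ↔ StableOn N r₀ W := by
      intro W
      refine forall_congr' fun x => forall_congr' fun hx => ?_
      rw [hRN x hx]
    intro W hW
    obtain ⟨W', h1, h2⟩ := h₀.semi W ((hst' W).1 hW)
    exact ⟨W', (hst' W').2 h1, h2⟩

end Pool.Agent.Helper89.LG
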