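import Pool.Agent.Helper89.LG.Glue
import Pool.Graph.R_pool_sql_team_seeded_3997aac3.Q227.CD.NT4
import Pool.Graph.R_seed8.Results.MP_dc7914_al.IsotypyDegrees
import Pool.Graph.R_pool_sql_team_seeded_3997aac3.Q15.GRC1

/-!
# Gluing over number fields
-/

set_option autoImplicit false
set_option linter.unusedSectionVars false
set_option linter.style.haveILetI false

open scoped BigOperators Classical
open Pool.Agent.H254R3.IN Pool.Agent.Y60 Module Matrix

noncomputable section

namespace Pool.Agent.Helper89.LG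

section base

variable {Γ : Type} [Group Γ] {k K : Type} [Field k] [Field K] (ι : k →+* K) {n : ℕ}

/-- the dimension of the commutant does not grow under extension of the field -/
theorem CK_base (r : Γ → Matrix (Fin n) (Fin n) k) (N : Subgroup Γ) :
    finrank K (CK ι r N) ≤ finrank k (CK (RingHom.id k) r N) := by
  letI : Algebra k K := ι.toAlgebra
  have halg : ∀ x : k, algebraMap k K x = ι x := fun x => rfl
  let e := Module.Basis.ofVectorSpace k K
  let C := CK (RingHom.id k) r N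
  let b := Module.finBasis k C
  let B : Fin (finrank k C) → Matrix (Fin n) (Fin n) K := fun i => ((b i : C).1).map ι
  have hC : ∀ c ∈ C, c.map ι ∈ Submodule.span K (Set.range B) := by
    intro c hc
    have h1 : c = ∑ i, b.repr ⟨c, hc⟩ i • (b i : C).1 := by
      have h2 := congrArg Subtype.val (b.sum_repr ⟨c, hc⟩)
      refine Eq.trans h2.symm ?_
      simp only [Submodule.coe_sum, Submodule.coe_smul]
    have h2 : c.map ι = ∑ i, ι (b.repr ⟨c, hc⟩ i) • B i := by
      ext s t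
      have h3 := congrFun (congrFun h1 s) t
      rw [Matrix.map_apply, h3, Matrix.sum_apply, Matrix.sum_apply, map_sum]
      refine Finset.sum_congr rfl fun i _ => ?_
      rw [Matrix.smul_apply, Matrix.smul_apply, smul_eq_mul, map_mul, smul_eq_mul]
      rfl
    rw [h2]
    exact Submodule.sum_mem _ fun i _ => Submodule.smul_mem _ _ (Submodule.subset_span ⟨i, rfl⟩)
  have hle : CK ι r N ≤ Submodule.span K (Set.range B) := by
    intro a ha
    -- the components
    let co : Module.Basis.ofVectorSpaceIndex k K → Matrix (Fin n) (Fin n) k :=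
      fun i => a.map (e.coord i)
    have hco : ∀ i, co i ∈ C := by
      intro i x hx
      have h1 := ha x hx
      ext s t
      have h2 := congrArg (e.coord i) (congrFun (congrFun h1 s) t)
      rw [Matrix.mul_apply, Matrix.mul_apply, map_sum, map_sum] at h2
      rw [Matrix.mul_apply, Matrix.mul_apply]
      have h3 : ∀ j, (e.coord i) (a s j * ((r x).map ι) j t) = co i s j * r x j t := by
        intro j
        rw [Matrix.map_apply, ← halg, mul_comm, ← Algebra.smul_def, map_smul, smul_eq_mul, mul_comm]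
        rfl
      have h4 : ∀ j, (e.coord i) (((r x).map ι) s j * a j t) = r x s j * co i j t := by
        intro j
        rw [Matrix.map_apply, ← halg, ← Algebra.smul_def, map_smul, smul_eq_mul]
        rfl
      rw [Finset.sum_congr rfl fun j _ => h3 j, Finset.sum_congr rfl fun j _ => h4 j] at h2
      exact h2
    let T : Finset (Module.Basis.ofVectorSpaceIndex k K) :=
      Finset.univ.biUnion fun s : Fin n => Finset.univ.biUnion fun t : Fin n =>
        (e.repr (a s t)).support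
    have hT : ∀ s t, (e.repr (a s t)).support ⊆ T := fun s t => by
      intro i hi
      rw [Finset.mem_biUnion]
      refine ⟨s, Finset.mem_univ s, ?_⟩
      rw [Finset.mem_biUnion]
      exact ⟨t, Finset.mem_univ t, hi⟩
    have hsum : a = ∑ i ∈ T, e i • (co i).map ι := by
      ext s t
      rw [Matrix.sum_apply]
      have h1 := e.linearCombination_repr (a s t)
      rw [Finsupp.linearCombination_apply, Finsupp.sum_of_support_subset _ (hT s t) _ (by simp)] at h1
      conv_lhs => rw [← h1]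
      refine Finset.sum_congr rfl fun i _ => ?_
      rw [Matrix.smul_apply, smul_eq_mul, Matrix.map_apply, ← halg, mul_comm, ← Algebra.smul_def]
      rfl
    rw [hsum]
    exact Submodule.sum_mem _ fun i _ => Submodule.smul_mem _ _ (hC _ (hco i))
  refine (Submodule.finrank_mono hle).trans ?_
  refine (finrank_range_le_card (R := K) B).trans ?_
  rw [Fintype.card_fin]

end base

section reps

variable {Γ : Type} [Group Γ] {k : Type} [Field k] {n : ℕ}

/-- `W` is stable under `ρ` -/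
def Stable {Γ k : Type} [Group Γ] [Field k] {n : ℕ} (ρ : Γ →* GL (Fin n) k)
    (W : Submodule k (Fin n → k)) : Prop :=
  ∀ g, ∀ w ∈ W, (ρ g : Matrix (Fin n) (Fin n) k) *ᵥ w ∈ W

/-- `ρ` is semisimple: every stable subspace has a stable complement -/
def Semisimple {Γ k : Type} [Group Γ] [Field k] {n : ℕ} (ρ : Γ →* GL (Fin n) k) : Prop :=
  ∀ W, Stable ρ W → ∃ W', Stable ρ W' ∧ IsCompl W W'

/-- extension by `1` of a homomorphism on a subgroup -/
def ex {X : Subgroup Γ} (ρ : X →* GL (Fin n) k) (x : Γ) : Matrix (Fin n) (Fin n) k :=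
  if h : x ∈ X then (ρ ⟨x, h⟩ : Matrix (Fin n) (Fin n) k) else 1

theorem ex_mem {X : Subgroup Γ} (ρ : X →* GL (Fin n) k) {x : Γ} (h : x ∈ X) :
    ex ρ x = (ρ ⟨x, h⟩ : Matrix (Fin n) (Fin n) k) := by rw [ex, dif_pos h]

/-- the representation -/
def toRep {X : Type} [Group X] (ρ : X →* GL (Fin n) k) : Representation k X (Fin n → k) where
  toFun x := Matrix.toLin' (ρ x : Matrix (Fin n) (Fin n) k)
  map_one' := by
    rw [map_one]
    exact Matrix.toLin'_one
  map_mul' x y := by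
    rw [map_mul]
    exact Matrix.toLin'_mul _ _

theorem semi_toRep {X : Type} [Group X] (ρ : X →* GL (Fin n) k) :
    (toRep ρ).IsSemisimpleRepresentation ↔ Semisimple ρ := by
  rw [semi_iff]
  have h1 : ∀ W, (∀ g, ∀ w ∈ W, toRep ρ g w ∈ W) ↔ Stable ρ W := by
    intro W
    refine forall_congr' fun g => forall_congr' fun w => forall_congr' fun _ => ?_
    have : toRep ρ g w = (ρ g : Matrix (Fin n) (Fin n) k) *ᵥ w := Matrix.toLin'_apply _ _
    rw [this]
  refine forall_congr' fun W => ?_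
  rw [h1 W]
  refine imp_congr_right fun _ => exists_congr fun W' => ?_
  rw [h1 W']

/-- a semisimple representation of `X ≥ N` is good -/
theorem good_of {N X : Subgroup Γ} [N.Normal] (hNX : N ≤ X) (P : Γ → Multiset k)
    (ρ : X →* GL (Fin n) k) (hρ : Semisimple ρ)
    (hP : ∀ x : X, (ρ x : Matrix (Fin n) (Fin n) k).charpoly.roots = P x) :
    Good N P X (ex ρ) where
  le := hNX
  one := by
    rw [ex_mem ρ X.one_mem]
    have : (⟨1, X.one_mem⟩ : X) = 1 := rfl
    rw [this, map_one]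
    rfl
  mul x hx y hy := by
    rw [ex_mem ρ hx, ex_mem ρ hy, ex_mem ρ (X.mul_mem hx hy)]
    have : (⟨x * y, X.mul_mem hx hy⟩ : X) = ⟨x, hx⟩ * ⟨y, hy⟩ := rfl
    rw [this, map_mul]
    rfl
  roots x hx := by
    rw [ex_mem ρ hx]
    exact hP ⟨x, hx⟩
  semi := by
    have h1 := (semi_toRep ρ).2 hρ
    have h2 := Pool.Agent.Q15.GR.semi_res (N.subgroupOf X) h1
    rw [semi_iff] at h2
    intro W hW
    obtain ⟨W', h3, h4⟩ := h2 W (fun g w hw => by
      have h5 := hW _ g.2 w hw
      have h6 : ex ρ (((g : X) : Γ)) = (ρ (g : X) : Matrix (Fin n) (Fin n) k) :=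
        ex_mem ρ (g : X).2
      change Matrix.toLin' (ρ (g : X) : Matrix (Fin n) (Fin n) k) w ∈ W
      rw [Matrix.toLin'_apply, ← h6]
      exact h5)
    refine ⟨W', fun x hx w hw => ?_, h4⟩
    have h5 := h3 ⟨⟨x, hNX hx⟩, hx⟩ w hw
    change Matrix.toLin' (ρ ⟨x, hNX hx⟩ : Matrix (Fin n) (Fin n) k) w ∈ W' at h5
    rw [Matrix.toLin'_apply] at h5
    rw [ex_mem ρ (hNX hx)]
    exact h5

/-- the homomorphism of a good function on the whole group -/
def toGL {N : Subgroup Γ} {P : Γ → Multiset k} {R : Γ → Matrix (Fin n) (Fin n) k}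
    (h : Good N P ⊤ R) : Γ →* GL (Fin n) k where
  toFun x := ⟨R x, R x⁻¹, h.inv (Subgroup.mem_top x), h.inv' (Subgroup.mem_top x)⟩
  map_one' := Units.ext h.one
  map_mul' x y := Units.ext (h.mul x (Subgroup.mem_top x) y (Subgroup.mem_top y))

theorem toGL_apply {N : Subgroup Γ} {P : Γ → Multiset k} {R : Γ → Matrix (Fin n) (Fin n) k}
    (h : Good N P ⊤ R) (x : Γ) : (toGL h x : Matrix (Fin n) (Fin n) k) = R x := rfl

theorem toGL_semi [IsAlgClosed k] {N : Subgroup Γ} [N.Normal] [N.FiniteIndex]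
    {P : Γ → Multiset k} {R : Γ → Matrix (Fin n) (Fin n) k} (hN : (N.index : k) ≠ 0)
    (h : Good N P ⊤ R) : Semisimple (toGL h) := by
  have h1 := h.rep_semi hN
  rw [semi_iff] at h1
  intro W hW
  obtain ⟨W', h2, h3⟩ := h1 W (fun g w hw => by
    rw [Good.rep_apply, Matrix.toLin'_apply]
    exact hW g w hw)
  refine ⟨W', fun g w hw => ?_, h3⟩
  have h4 := h2 ⟨g, Subgroup.mem_top g⟩ w hw
  rw [Good.rep_apply, Matrix.toLin'_apply] at h4
  exact h4

end reps

section nt

open NumberField IsDedekindDomain Topology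
open Pool.Agent.W401.Cheb (GK IsFrob IsInert)

variable {K : Type} [Field K] [NumberField K] {k : Type} [Field k] {n : ℕ}

/-- `ρ` is trivial on an open subgroup -/
def OpenKernel (H : Subgroup (GK K)) (ρ : H →* GL (Fin n) k) : Prop :=
  ∃ U : Subgroup (GK K), IsOpen (U : Set (GK K)) ∧ ∀ x : H, (x : GK K) ∈ U → ρ x = 1

/-- `ρ` is trivial on inertia and has the polynomials `Q` at the geometric Frobenius elements -/
def CorrespondsOn (H : Subgroup (GK K)) (ρ : H →* GL (Fin n) k)
    (S : Set (HeightOneSpectrum (𝓞 K))) (Q : HeightOneSpectrum (𝓞 K) → Polynomial k) : Prop :=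
  ∀ v, v ∉ S → (∀ τ : H, IsInert v (τ : GK K) → ρ τ = 1) ∧
    ∀ σ : H, IsFrob v ((σ : GK K)⁻¹) → (ρ σ : Matrix (Fin n) (Fin n) k).charpoly = Q v

/-- the characteristic polynomials agree -/
theorem consistent {S : Set (HeightOneSpectrum (𝓞 K))} (hS : S.Finite)
    {Q : HeightOneSpectrum (𝓞 K) → Polynomial k} {H H' : Subgroup (GK K)}
    (hH : IsOpen (H : Set (GK K))) (hH' : IsOpen (H' : Set (GK K)))
    {ρ : H →* GL (Fin n) k} {ρ' : H' →* GL (Fin n) k} (hρ : OpenKernel H ρ)
    (hρ' : OpenKernel H' ρ') (hc : CorrespondsOn H ρ S Q) (hc' : CorrespondsOn H' ρ' S Q)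
    (x : GK K) (hx : x ∈ H) (hx' : x ∈ H') :
    (ρ ⟨x, hx⟩ : Matrix (Fin n) (Fin n) k).charpoly = (ρ' ⟨x, hx'⟩ : Matrix (Fin n) (Fin n) k).charpoly := by
  obtain ⟨U, hU, hU1⟩ := hρ
  obtain ⟨U', hU', hU1'⟩ := hρ'
  let W : Subgroup (GK K) := (U ⊓ U') ⊓ (H ⊓ H')
  have hW : IsOpen (W : Set (GK K)) := (hU.inter hU').inter (hH.inter hH')
  have hopen : IsOpen ((fun y : GK K => x⁻¹ * y) ⁻¹' (W : Set (GK K))) :=
    hW.preimage (continuous_const_mul x⁻¹)
  have hmem : x ∈ (fun y : GK K => x⁻¹ * y) ⁻¹' (W : Set (GK K)) := by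
    change x⁻¹ * x ∈ W
    rw [inv_mul_cancel]
    exact W.one_mem
  obtain ⟨y, hy, v, hv, hfr⟩ := (Pool.Agent.Q227.CD.frob_dense_inv hS).inter_open_nonempty _ hopen
    ⟨x, hmem⟩
  have hyW : x⁻¹ * y ∈ W := hy
  have hyx : y = x * (x⁻¹ * y) := by group
  have hyH : y ∈ H := by
    rw [hyx]
    exact H.mul_mem hx hyW.2.1
  have hyH' : y ∈ H' := by
    rw [hyx]
    exact H'.mul_mem hx' hyW.2.2
  have h1 : ρ ⟨y, hyH⟩ = ρ ⟨x, hx⟩ := by
    have h2 : (⟨y, hyH⟩ : H) = ⟨x, hx⟩ * ⟨x⁻¹ * y, hyW.2.1⟩ := Subtype.ext hyx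
    rw [h2, map_mul, hU1 ⟨x⁻¹ * y, hyW.2.1⟩ hyW.1.1, mul_one]
  have h1' : ρ' ⟨y, hyH'⟩ = ρ' ⟨x, hx'⟩ := by
    have h2 : (⟨y, hyH'⟩ : H') = ⟨x, hx'⟩ * ⟨x⁻¹ * y, hyW.2.2⟩ := Subtype.ext hyx
    rw [h2, map_mul, hU1' ⟨x⁻¹ * y, hyW.2.2⟩ hyW.1.2, mul_one]
  rw [← h1, ← h1', (hc v hv).2 ⟨y, hyH⟩ hfr, (hc' v hv).2 ⟨y, hyH'⟩ hfr]

/-- the commutant of `ρ` on `N` -/
def Comm (N : Subgroup (GK K)) (H : Subgroup (GK K)) (ρ : H →* GL (Fin n) k) :
    Submodule k (Matrix (Fin n) (Fin n) k) where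
  carrier := {a | ∀ x : H, (x : GK K) ∈ N →
    a * (ρ x : Matrix (Fin n) (Fin n) k) = (ρ x : Matrix (Fin n) (Fin n) k) * a}
  zero_mem' := fun _ _ => by rw [zero_mul, mul_zero]
  add_mem' := fun {a b} ha hb x hx => by rw [add_mul, mul_add, ha x hx, hb x hx]
  smul_mem' := fun c a ha x hx => by rw [smul_mul_assoc, mul_smul_comm, ha x hx]

theorem Comm_eq {N H : Subgroup (GK K)} (hN : N ≤ H) (ρ : H →* GL (Fin n) k) :
    CK (RingHom.id k) (ex ρ) N = Comm N H ρ := by
  have hid : ∀ M : Matrix (Fin n) (Fin n) k, M.map (RingHom.id k) = M := fun M => by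
    ext i j
    rfl
  ext a
  constructor
  · intro ha x hx
    have h1 := ha x hx
    rw [hid, ex_mem ρ x.2] at h1
    exact h1
  · intro ha x hx
    have h1 := ha ⟨x, hN hx⟩ hx
    rw [hid, ex_mem ρ (hN hx)]
    exact h1

end nt

end Pool.Agent.Helper89.LG
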