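import Pool.Graph.R_pool_sql_team_seeded_1acbe0a2.Y60.Mod7
import Pool.Graph.R_seed8.Y788.PermRep
import Pool.Graph.R_seed8.W446.AS.Two

/-!
# Brauer characters of groups of order prime to `p` are positive definite
-/

set_option autoImplicit false
set_option linter.unusedSectionVars false
set_option linter.style.haveILetI false

open scoped BigOperators Classical MonoidAlgebra
open Pool.Agent.H254R3.IN Pool.Agent.Helper884 Pool.Agent.Y60

noncomputable section

namespace Pool.Agent.Helper89.LG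

variable {O : ValuationSubring ℂ} {G : Type} [Group G] [Fintype G] {p : ℕ} [Fact p.Prime]
  (hp : (p : ℂ) ∈ O.nonunits)

/-! ### elements of the group ring -/

/-- the element of `O[G]` with given coefficients -/
def mk (a : G → O) : MonoidAlgebra O G := ∑ g, MonoidAlgebra.single g (a g)

lemma mk_idem {a : G → O} (ha : ∀ g, ∑ x, a x * a (x⁻¹ * g) = a g) : mk a * mk a = mk a := by
  unfold mk
  rw [Finset.sum_mul_sum]
  simp only [MonoidAlgebra.single_mul_single]
  have h1 : ∀ x : G, ∑ y : G, MonoidAlgebra.single (x * y) (a x * a y) =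
      ∑ g : G, MonoidAlgebra.single g (a x * a (x⁻¹ * g)) := by
    intro x
    refine Fintype.sum_equiv (Equiv.mulLeft x) _ _ fun y => ?_
    simp only [Equiv.coe_mulLeft, inv_mul_cancel_left]
  rw [Finset.sum_congr rfl fun x _ => h1 x, Finset.sum_comm]
  refine Finset.sum_congr rfl fun g _ => ?_
  conv_rhs => rw [← ha g]
  exact (map_sum (MonoidAlgebra.singleAddHom (R := O) g) _ _).symm

lemma cv_mk (f : G → ℂ) (a : G → O) : cv O f (mk a) = ∑ g, (a g : ℂ) * f g := by
  unfold cv mk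
  refine Finset.sum_congr rfl fun g _ => ?_
  congr 2
  rw [MonoidAlgebra.coeff_sum, Finsupp.finsetSum_apply, Finset.sum_eq_single g]
  · rw [MonoidAlgebra.coeff_single, Finsupp.single_eq_same]
  · intro h _ hne
    rw [MonoidAlgebra.coeff_single, Finsupp.single_eq_of_ne (Ne.symm hne)]
  · intro h
    exact absurd (Finset.mem_univ g) h

lemma cv_sum {ι : Type*} (s : Finset ι) (c : ι → ℂ) (F : ι → G → ℂ) (e : MonoidAlgebra O G) :
    cv O (∑ i ∈ s, c i • F i) e = ∑ i ∈ s, c i * cv O (F i) e := by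
  unfold cv
  simp only [Finset.sum_apply, Pi.smul_apply, smul_eq_mul, Finset.mul_sum]
  rw [Finset.sum_comm]
  refine Finset.sum_congr rfl fun i _ => Finset.sum_congr rfl fun g _ => ?_
  ring

/-! ### Brauer characters -/

omit [Fintype G] [Fact p.Prime] in
lemma brauer_class {V : Type} [AddCommGroup V] [Module (RF O) V] [FiniteDimensional (RF O) V]
    (σ : Representation (RF O) G V) (g y : G) :
    brauerChar p O σ (y * g * y⁻¹) = brauerChar p O σ g := by
  have ho : ∀ g y : G, orderOf (y * g * y⁻¹) = orderOf g := by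
    intro g y
    rw [← MulAut.conj_apply, MulEquiv.orderOf_eq]
  have hle : ∀ (g y : G) (μ : RF O), Module.finrank (RF O) (Module.End.eigenspace (σ g) μ) ≤
      Module.finrank (RF O) (Module.End.eigenspace (σ (y * g * y⁻¹)) μ) := by
    intro g y μ
    have hmem : ∀ v ∈ Module.End.eigenspace (σ g) μ,
        σ y v ∈ Module.End.eigenspace (σ (y * g * y⁻¹)) μ := by
      intro v hv
      rw [Module.End.mem_eigenspace_iff] at hv ⊢
      rw [← Module.End.mul_apply, ← map_mul, inv_mul_cancel_right, map_mul, Module.End.mul_apply,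
        hv, map_smul]
    refine LinearMap.finrank_le_finrank_of_injective (f := (σ y).restrict hmem) ?_
    intro v w hvw
    have h1 : σ y v = σ y w := congrArg Subtype.val hvw
    apply Subtype.ext
    have h2 := congrArg (σ y⁻¹) h1
    rw [← Module.End.mul_apply, ← Module.End.mul_apply, ← map_mul, inv_mul_cancel, map_one,
      Module.End.one_apply, Module.End.one_apply] at h2
    exact h2
  have heq : ∀ μ : RF O, Module.finrank (RF O) (Module.End.eigenspace (σ (y * g * y⁻¹)) μ) =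
      Module.finrank (RF O) (Module.End.eigenspace (σ g) μ) := by
    intro μ
    refine le_antisymm ?_ (hle g y μ)
    have h1 := hle (y * g * y⁻¹) y⁻¹ μ
    have h2 : y⁻¹ * (y * g * y⁻¹) * y⁻¹⁻¹ = g := by group
    rwa [h2] at h1
  unfold brauerChar
  rw [ho]
  split_ifs
  · rfl
  · refine Finset.sum_congr rfl fun ζ _ => ?_
    rw [heq]

section hp

include hp

variable (hG : ¬ p ∣ Nat.card G)

include hG

omit hp [Fact p.Prime] in
lemma not_dvd_order (g : G) : ¬ p ∣ orderOf g := fun h => hG (h.trans (orderOf_dvd_natCard g))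

omit hp [Fact p.Prime] in
lemma regPart_self (χ : G → ℂ) : regPart p χ = χ := by
  funext g
  rw [regPart, if_neg (not_dvd_order hG g)]

/-- the Brauer character as a combination of irreducible ones -/
lemma brauer_comb (M : Md O G) : ∃ c : (G → ℂ) → ℕ,
    brauerChar p O M.σ = ∑ φ ∈ IBrF (G := G) hp, (c φ : ℂ) • φ ∧
    ∀ e : MonoidAlgebra O G, e * e = e → (rk (IsLocalRing.residue O) M.σ e : ℂ) =
      ∑ φ ∈ IBrF (G := G) hp, (c φ : ℂ) * rI p O φ e := by
  obtain ⟨c, hc, hd⟩ := exists_comp hp _ M rfl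
  have hsum : ∀ e : MonoidAlgebra O G, e * e = e →
      (rk (IsLocalRing.residue O) M.σ e : ℂ) =
        ∑ φ ∈ IBrF (G := G) hp, (c φ : ℂ) * rI p O φ e := by
    intro e he
    have h1 := hd e he
    have h2 : (c.sum fun φ m => m * rI p O φ e) =
        ∑ φ ∈ IBrF (G := G) hp, c φ * rI p O φ e := by
      apply Finsupp.sum_of_support_subset
      · intro φ hφ
        exact (mem_IBrF hp).mpr (hc φ hφ)
      · intro φ _
        rw [zero_mul]
    have h3 : rk (IsLocalRing.residue O) M.σ e = ∑ φ ∈ IBrF (G := G) hp, c φ * rI p O φ e := by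
      rw [← h2, ← h1]
    rw [h3]
    push_cast
    rfl
  refine ⟨c, ?_, hsum⟩
  funext g
  rw [Finset.sum_apply]
  have hg := not_dvd_order hG g
  rw [brauer_eq hp hg]
  have h1 : ∀ ζ ∈ Polynomial.nthRootsFinset (orderOf g) (1 : ℂ),
      (rk (IsLocalRing.residue O) M.σ (eO O g ζ) : ℂ) * ζ =
        ∑ φ ∈ IBrF (G := G) hp, (c φ : ℂ) * rI p O φ (eO O g ζ) * ζ := by
    intro ζ hζ
    rw [hsum _ (eO_idem hp hg ((Polynomial.mem_nthRootsFinset (orderOf_pos g) _).mp hζ)),
      Finset.sum_mul]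
  rw [Finset.sum_congr rfl h1, Finset.sum_comm]
  refine Finset.sum_congr rfl fun φ hφ => ?_
  obtain ⟨N, hN1, hN2⟩ := (isIBr_iff φ).mp ((mem_IBrF hp).mp hφ)
  rw [Pi.smul_apply, smul_eq_mul]
  conv_rhs => rw [hN2, brauer_eq hp hg]
  rw [Finset.mul_sum]
  refine Finset.sum_congr rfl fun ζ hζ => ?_
  rw [hN2, rI_eq hp N hN1]
  ring

/-- the rank of an idempotent on an irreducible representation -/
lemma rI_eq_cv {φ : G → ℂ} (hφ : φ ∈ IBrF (G := G) hp) {e : MonoidAlgebra O G} (he : e * e = e) :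
    (rI p O φ e : ℂ) = cv O φ e := by
  obtain ⟨d, hd1, hd2⟩ := exists_decomp (G := G) hp
  obtain ⟨N, hN1, hN2⟩ := (isIBr_iff φ).mp ((mem_IBrF hp).mp hφ)
  have hcl : IC.IsClass φ := by
    intro g y
    rw [hN2]
    exact brauer_class N.σ g y
  have hchi : ∀ χ ∈ IC.Irr G, χ = ∑ ψ ∈ IBrF (G := G) hp, (d χ ψ : ℂ) • ψ := by
    intro χ hχ
    have h1 := hd1 χ (mem_Irr.mp hχ)
    rw [regPart_self hG, finsum_ibr hp] at h1
    exact h1
  have hexp := IC.expand φ hcl
  -- the coefficients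
  have hcoef : ∀ ψ, IsIBr p O ψ →
      (∑ χ ∈ IC.Irr G, IC.B φ χ * (d χ ψ : ℂ)) - (if ψ = φ then 1 else 0) = 0 := by
    refine ibr_unique hp (fun ψ => (∑ χ ∈ IC.Irr G, IC.B φ χ * (d χ ψ : ℂ)) -
      (if ψ = φ then 1 else 0)) ?_
    have h1 : ∑ ψ ∈ IBrF (G := G) hp, (∑ χ ∈ IC.Irr G, IC.B φ χ * (d χ ψ : ℂ)) • ψ = φ := by
      conv_rhs => rw [hexp]
      simp only [Finset.sum_smul]
      rw [Finset.sum_comm]
      refine Finset.sum_congr rfl fun χ hχ => ?_
      conv_rhs => rw [hchi χ hχ]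
      rw [Finset.smul_sum]
      refine Finset.sum_congr rfl fun ψ _ => ?_
      rw [smul_smul]
      congr 3
      exact (hchi χ hχ)
    have h2 : ∑ ψ ∈ IBrF (G := G) hp, (if ψ = φ then (1 : ℂ) else 0) • ψ = φ := by
      rw [Finset.sum_eq_single φ]
      · rw [if_pos rfl, one_smul]
      · intro ψ _ hne
        rw [if_neg hne, zero_smul]
      · intro h
        exact absurd hφ h
    simp only [sub_smul]
    rw [Finset.sum_sub_distrib, h1, h2, sub_self]
  have h3 : cv O φ e = ∑ χ ∈ IC.Irr G, IC.B φ χ * cv O χ e := by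
    conv_lhs => rw [hexp]
    rw [cv_sum]
  rw [h3]
  have h4 : ∀ χ ∈ IC.Irr G, IC.B φ χ * cv O χ e =
      ∑ ψ ∈ IBrF (G := G) hp, (IC.B φ χ * (d χ ψ : ℂ)) * rI p O ψ e := by
    intro χ hχ
    rw [hd2 χ (mem_Irr.mp hχ) e he, Finset.mul_sum]
    refine Finset.sum_congr rfl fun ψ _ => ?_
    ring
  rw [Finset.sum_congr rfl h4, Finset.sum_comm]
  have h5 : ∀ ψ ∈ IBrF (G := G) hp, ∑ χ ∈ IC.Irr G, (IC.B φ χ * (d χ ψ : ℂ)) * rI p O ψ e =
      if ψ = φ then (rI p O φ e : ℂ) else 0 := by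
    intro ψ hψ
    rw [← Finset.sum_mul, sub_eq_zero.mp (hcoef ψ ((mem_IBrF hp).mp hψ))]
    split_ifs with h
    · rw [h, one_mul]
    · rw [zero_mul]
  rw [Finset.sum_congr rfl h5, Finset.sum_ite_eq' (IBrF (G := G) hp) φ, if_pos hφ]

/-- **the rank of an idempotent is the value of the Brauer character** -/
theorem rk_eq_cv (M : Md O G) {e : MonoidAlgebra O G} (he : e * e = e) :
    (rk (IsLocalRing.residue O) M.σ e : ℂ) = cv O (brauerChar p O M.σ) e := by
  obtain ⟨c, h1, h2⟩ := brauer_comb hp hG M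
  rw [h2 e he, h1, cv_sum]
  refine Finset.sum_congr rfl fun φ hφ => ?_
  rw [rI_eq_cv hp hG hφ he]

end hp

end Pool.Agent.Helper89.LG
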