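import Pool.Agent.Helper89.LG.Psd

/-!
# Positivity of Brauer characters of groups of order prime to `p`
-/

set_option autoImplicit false
set_option linter.unusedSectionVars false
set_option linter.style.haveILetI false

open scoped BigOperators Classical MonoidAlgebra
open Pool.Agent.H254R3.IN Pool.Agent.Helper884 Pool.Agent.Y60

noncomputable section

namespace Pool.Agent.Helper89.LG

variable {G : Type} [Group G] [Fintype G]

/-- the convolution identity -/
lemma conv_irr {χ : G → ℂ} (hχ : IsIrr χ) (x y : G) :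
    ∑ z, χ (x⁻¹ * z) * χ (z⁻¹ * y) = (Nat.card G : ℂ) / χ 1 * χ (x⁻¹ * y) := by
  have hN : (Nat.card G : ℂ) ≠ 0 := by exact_mod_cast Nat.card_pos.ne'
  have hcl : IsCl (fun g : G => χ g⁻¹) := by
    intro g y
    have h1 : (y * g * y⁻¹)⁻¹ = y * g⁻¹ * y⁻¹ := by group
    simp only [h1]
    exact hχ.conj g⁻¹ y
  have hOm : ∀ ψ : G → ℂ, IsIrr ψ → Om (fun g : G => χ g⁻¹) ψ =
      if ψ = χ then (Nat.card G : ℂ) / χ 1 else 0 := by
    intro ψ hψ
    have h1 := irr_orth hψ hχ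
    unfold Om
    have h2 : ∑ g : G, χ g⁻¹ * ψ g = (Nat.card G : ℂ) * if ψ = χ then 1 else 0 := by
      rw [← h1, mul_inv_cancel_left₀ hN]
      refine Finset.sum_congr rfl fun g _ => mul_comm _ _
    rw [h2]
    split_ifs with h
    · rw [mul_one, h]
    · rw [mul_zero, zero_div]
  have hcl' : IsCl (fun g : G => (Nat.card G : ℂ) / χ 1 * χ g⁻¹) := fun g y => by
    have := hcl g y
    simp only at this ⊢
    rw [this]
  have key : conv (fun g : G => χ g⁻¹) (fun g : G => χ g⁻¹) =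
      fun g : G => (Nat.card G : ℂ) / χ 1 * χ g⁻¹ := by
    refine eq_of_Om (hcl.conv hcl) hcl' fun ψ hψ => ?_
    rw [Om_conv hψ hcl hcl, Om_smul, hOm ψ hψ]
    split_ifs
    · rfl
    · rw [mul_zero, mul_zero]
  have h1 := congrFun key (y⁻¹ * x)
  have h2 : (y⁻¹ * x)⁻¹ = x⁻¹ * y := by group
  simp only [h2] at h1
  rw [← h1]
  unfold conv
  refine Fintype.sum_equiv (Equiv.mulLeft y⁻¹) _ _ fun z => ?_
  simp only [Equiv.coe_mulLeft]
  have h3 : (y⁻¹ * z)⁻¹ = z⁻¹ * y := by group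
  have h4 : (z⁻¹ * y * (y⁻¹ * x))⁻¹ = x⁻¹ * z := by group
  rw [h3, h4, mul_comm]

lemma irr_star {χ : G → ℂ} (hχ : IsIrr χ) (g : G) : χ g⁻¹ = star (χ g) := by
  obtain ⟨V, _, _, _, ρ, _, rfl⟩ := hχ
  exact Pool.Agent.W446.AS.heilbronn_star (Pool.Agent.Y788.rep_heilbronn ρ) g

/-- irreducible characters are positive definite -/
lemma psd_irr {χ : G → ℂ} (hχ : IsIrr χ) {ι : Type} [Fintype ι] (w : ι → ℝ) (y : ι → G) :
    0 ≤ (∑ i, ∑ j, ((w i * w j : ℝ) : ℂ) * χ ((y i)⁻¹ * y j)).re := by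
  obtain ⟨n, hn, hn'⟩ := hχ.deg
  have hN : (Nat.card G : ℂ) ≠ 0 := by exact_mod_cast Nat.card_pos.ne'
  have hn0 : (n : ℂ) ≠ 0 := by exact_mod_cast hn.ne'
  have h1 : ∀ i j, χ ((y i)⁻¹ * y j) = (n : ℂ) / (Nat.card G : ℂ) *
      ∑ z, star (χ (z⁻¹ * y i)) * χ (z⁻¹ * y j) := by
    intro i j
    have h2 := conv_irr hχ (y i) (y j)
    have h3 : ∀ z, χ ((y i)⁻¹ * z) = star (χ (z⁻¹ * y i)) := by
      intro z
      rw [← irr_star hχ]
      congr 1
      group
    have h4 : ∑ z, star (χ (z⁻¹ * y i)) * χ (z⁻¹ * y j) =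
        (Nat.card G : ℂ) / χ 1 * χ ((y i)⁻¹ * y j) := by
      rw [← h2]
      exact Finset.sum_congr rfl fun z _ => by rw [h3 z]
    rw [h4, ← hn']
    field_simp
  have h2 : ∑ i, ∑ j, ((w i * w j : ℝ) : ℂ) * χ ((y i)⁻¹ * y j) =
      (((n : ℝ) / (Nat.card G : ℝ) * ∑ z, ‖∑ j, (w j : ℂ) * χ (z⁻¹ * y j)‖ ^ 2 : ℝ) : ℂ) := by
    have h3 : ∀ z, ((‖∑ j, (w j : ℂ) * χ (z⁻¹ * y j)‖ ^ 2 : ℝ) : ℂ) =
        ∑ i, ∑ j, ((w i * w j : ℝ) : ℂ) * (star (χ (z⁻¹ * y i)) * χ (z⁻¹ * y j)) := by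
      intro z
      rw [← Complex.normSq_eq_norm_sq, Complex.normSq_eq_conj_mul_self, map_sum, Finset.sum_mul_sum]
      refine Finset.sum_congr rfl fun i _ => Finset.sum_congr rfl fun j _ => ?_
      rw [map_mul, Complex.conj_ofReal]
      push_cast
      change _ = (w i : ℂ) * (w j : ℂ) * ((starRingEnd ℂ) (χ (z⁻¹ * y i)) * χ (z⁻¹ * y j))
      ring
    rw [Complex.ofReal_mul, Complex.ofReal_sum, Finset.sum_congr rfl fun z _ => h3 z]
    have h4 : ∑ z : G, ∑ i, ∑ j, ((w i * w j : ℝ) : ℂ) * (star (χ (z⁻¹ * y i)) * χ (z⁻¹ * y j)) =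
        ∑ i, ∑ j, ((w i * w j : ℝ) : ℂ) * ∑ z : G, (star (χ (z⁻¹ * y i)) * χ (z⁻¹ * y j)) := by
      rw [Finset.sum_comm]
      refine Finset.sum_congr rfl fun i _ => ?_
      rw [Finset.sum_comm]
      refine Finset.sum_congr rfl fun j _ => ?_
      rw [Finset.mul_sum]
    rw [h4, Finset.mul_sum]
    refine Finset.sum_congr rfl fun i _ => ?_
    rw [Finset.mul_sum]
    refine Finset.sum_congr rfl fun j _ => ?_
    rw [h1]
    push_cast
    ring
  rw [h2, Complex.ofReal_re]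
  positivity

/-! ### fixed points -/

/-- the fixed points of a subgroup -/
def fix {F V : Type} [Field F] [AddCommGroup V] [Module F V] (σ : Representation F G V)
    (H : Subgroup G) : Submodule F V where
  carrier := {v | ∀ h ∈ H, σ h v = v}
  zero_mem' := fun h _ => map_zero _
  add_mem' := fun {a b} ha hb h hh => by rw [map_add, ha h hh, hb h hh]
  smul_mem' := fun c a ha h hh => by rw [map_smul, ha h hh]

/-- the average over a subgroup -/
def avg (H : Subgroup G) (f : G → ℂ) : ℂ := (Nat.card H : ℂ)⁻¹ * ∑ h : G, if h ∈ H then f h else 0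

variable {O : ValuationSubring ℂ} {p : ℕ} [Fact p.Prime] (hp : (p : ℂ) ∈ O.nonunits)

section hp

include hp

variable (hG : ¬ p ∣ Nat.card G)

include hG

lemma inv_card_mem (H : Subgroup G) : ((Nat.card H : ℂ)⁻¹) ∈ O :=
  nat_inv_mem hp fun h => hG (h.trans (Subgroup.card_subgroup_dvd_card H))

/-- the coefficients of the average over a subgroup -/
def aH (O : ValuationSubring ℂ) (H : Subgroup G) (g : G) : O :=
  if g ∈ H then toO O ((Nat.card H : ℂ)⁻¹) else 0

lemma aH_idem (H : Subgroup G) (g : G) : ∑ x, aH O H x * aH O H (x⁻¹ * g) = aH O H g := by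
  have hmem := inv_card_mem hp hG H
  have hN : (Nat.card H : ℂ) ≠ 0 := by exact_mod_cast Nat.card_pos.ne'
  apply Subtype.ext
  push_cast
  have h1 : ∀ x : G, ((aH O H x : O) : ℂ) = if x ∈ H then (Nat.card H : ℂ)⁻¹ else 0 := by
    intro x
    unfold aH
    split_ifs
    · exact toO_coe hmem
    · rfl
  simp only [h1]
  by_cases hg : g ∈ H
  · have h2 : ∀ x : G, ((if x ∈ H then (Nat.card H : ℂ)⁻¹ else 0) *
        if x⁻¹ * g ∈ H then (Nat.card H : ℂ)⁻¹ else 0) =
        if x ∈ H then (Nat.card H : ℂ)⁻¹ * (Nat.card H : ℂ)⁻¹ else 0 := by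
      intro x
      by_cases hx : x ∈ H
      · rw [if_pos hx, if_pos hx, if_pos (H.mul_mem (H.inv_mem hx) hg)]
      · rw [if_neg hx, if_neg hx, zero_mul]
    rw [Finset.sum_congr rfl fun x _ => h2 x, ← Finset.sum_filter, Finset.sum_const, nsmul_eq_mul,
      if_pos hg]
    have h3 : ((Finset.univ.filter fun x : G => x ∈ H).card : ℂ) = Nat.card H := by
      rw [Nat.card_eq_fintype_card, Fintype.card_subtype]
    rw [h3]
    field_simp
  · rw [if_neg hg]
    refine Finset.sum_eq_zero fun x _ => ?_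
    by_cases hx : x ∈ H
    · rw [if_neg (c := x⁻¹ * g ∈ H), mul_zero]
      intro h
      apply hg
      have := H.mul_mem hx h
      rwa [mul_inv_cancel_left] at this
    · rw [if_neg hx, zero_mul]

lemma cv_aH (H : Subgroup G) (f : G → ℂ) : cv O f (mk (aH O H)) = avg H f := by
  have hmem := inv_card_mem hp hG H
  rw [cv_mk, avg, Finset.mul_sum]
  refine Finset.sum_congr rfl fun g _ => ?_
  unfold aH
  split_ifs
  · rw [toO_coe hmem]
  · rw [mul_zero]
    change (0 : ℂ) * _ = 0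
    rw [zero_mul]

lemma range_aH (H : Subgroup G) (M : Md O G) :
    LinearMap.range (ev (IsLocalRing.residue O) M.σ (mk (aH O H))) = fix M.σ H := by
  have hmem := inv_card_mem hp hG H
  have hN : (Nat.card H : ℂ) ≠ 0 := by exact_mod_cast Nat.card_pos.ne'
  set u : RF O := IsLocalRing.residue O (toO O ((Nat.card H : ℂ)⁻¹)) with hu
  have hev : ∀ v : M.V, ev (IsLocalRing.residue O) M.σ (mk (aH O H)) v =
      u • ∑ h : G, if h ∈ H then M.σ h v else 0 := by
    intro v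
    unfold mk
    rw [map_sum, LinearMap.sum_apply, Finset.smul_sum]
    refine Finset.sum_congr rfl fun g _ => ?_
    rw [ev_single, LinearMap.smul_apply]
    unfold aH
    split_ifs
    · rfl
    · rw [map_zero, zero_smul, smul_zero]
  have hu1 : u * (Nat.card H : RF O) = 1 := by
    have h1 : toO O ((Nat.card H : ℂ)⁻¹) * ((Nat.card H : ℕ) : O) = 1 := by
      apply Subtype.ext
      push_cast
      rw [toO_coe hmem, inv_mul_cancel₀ hN]
    have h2 := congrArg (IsLocalRing.residue O) h1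
    rw [map_mul, map_natCast, map_one] at h2
    exact h2
  ext v
  constructor
  · rintro ⟨w, rfl⟩
    intro h hh
    rw [hev, map_smul, map_sum]
    congr 1
    refine Fintype.sum_equiv (Equiv.mulLeft h) _ _ fun x => ?_
    by_cases hx : x ∈ H
    · have h2 : (Equiv.mulLeft h) x ∈ H := H.mul_mem hh hx
      rw [if_pos hx, if_pos h2]
      change _ = M.σ (h * x) w
      rw [map_mul, Module.End.mul_apply]
    · have h2 : (Equiv.mulLeft h) x ∉ H := by
        intro h1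
        apply hx
        have := H.mul_mem (H.inv_mem hh) (show h * x ∈ H from h1)
        rwa [inv_mul_cancel_left] at this
      rw [if_neg hx, if_neg h2, map_zero]
  · intro hv
    refine ⟨v, ?_⟩
    rw [hev]
    have h1 : ∀ h : G, (if h ∈ H then M.σ h v else 0) = if h ∈ H then v else 0 := by
      intro h
      split_ifs with hh
      · exact hv h hh
      · rfl
    rw [Finset.sum_congr rfl fun h _ => h1 h, ← Finset.sum_filter, Finset.sum_const]
    have h3 : (Finset.univ.filter fun x : G => x ∈ H).card = Nat.card H := by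
      rw [Nat.card_eq_fintype_card, Fintype.card_subtype]
    rw [h3, ← Nat.cast_smul_eq_nsmul (RF O), smul_smul, hu1, one_smul]

/-- **the dimension of the fixed points is the average of the Brauer character** -/
theorem fix_dim (M : Md O G) (H : Subgroup G) :
    (Module.finrank (RF O) (fix M.σ H) : ℂ) = avg H (brauerChar p O M.σ) := by
  rw [← cv_aH hp hG, ← rk_eq_cv hp hG M (mk_idem (aH_idem hp hG H))]
  unfold rk
  rw [range_aH hp hG]

/-- the coefficients of the Brauer character are not negative -/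
theorem coef_nonneg (M : Md O G) {χ : G → ℂ} (hχ : IsIrr χ) :
    ∃ r : ℝ, 0 ≤ r ∧ IC.B (brauerChar p O M.σ) χ = r := by
  obtain ⟨n, hn, hn'⟩ := hχ.deg
  have hN : (Nat.card G : ℂ) ≠ 0 := by exact_mod_cast Nat.card_pos.ne'
  have hn0 : (n : ℂ) ≠ 0 := by exact_mod_cast hn.ne'
  have hmem : ∀ g : G, χ 1 * (Nat.card G : ℂ)⁻¹ * χ g⁻¹ ∈ O := fun g =>
    O.mul_mem _ _ (O.mul_mem _ _ (hχ.val_mem O 1) (nat_inv_mem hp hG)) (hχ.val_mem O g⁻¹)
  let a : G → O := fun g => ⟨χ 1 * (Nat.card G : ℂ)⁻¹ * χ g⁻¹, hmem g⟩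
  have ha : ∀ g, ∑ x, a x * a (x⁻¹ * g) = a g := by
    intro g
    apply Subtype.ext
    push_cast
    change ∑ x : G, (χ 1 * (Nat.card G : ℂ)⁻¹ * χ x⁻¹) * (χ 1 * (Nat.card G : ℂ)⁻¹ * χ (x⁻¹ * g)⁻¹) =
      χ 1 * (Nat.card G : ℂ)⁻¹ * χ g⁻¹
    have h1 := conv_irr hχ g 1
    have h2 : ∑ x : G, (χ 1 * (Nat.card G : ℂ)⁻¹ * χ x⁻¹) *
        (χ 1 * (Nat.card G : ℂ)⁻¹ * χ (x⁻¹ * g)⁻¹) =
        (χ 1 * (Nat.card G : ℂ)⁻¹) ^ 2 * ∑ x : G, χ (g⁻¹ * x) * χ (x⁻¹ * 1) := by
      rw [Finset.mul_sum]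
      refine Finset.sum_congr rfl fun x _ => ?_
      have h3 : (x⁻¹ * g)⁻¹ = g⁻¹ * x := by group
      rw [h3, mul_one]
      ring
    rw [h2, h1, mul_one, ← hn']
    field_simp
  have h1 := rk_eq_cv hp hG M (mk_idem ha)
  rw [cv_mk] at h1
  have h2 : ∑ g : G, (a g : ℂ) * brauerChar p O M.σ g = n * IC.B (brauerChar p O M.σ) χ := by
    rw [IC.B, ← mul_assoc, Finset.mul_sum, hn']
    refine Finset.sum_congr rfl fun g _ => ?_
    change χ 1 * (Nat.card G : ℂ)⁻¹ * χ g⁻¹ * _ = _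
    ring
  rw [h2] at h1
  refine ⟨(rk (IsLocalRing.residue O) M.σ (mk a) : ℝ) / n, by positivity, ?_⟩
  push_cast
  rw [h1]
  field_simp

omit hp hG [Fact p.Prime] in
lemma irr_one : IsIrr (1 : G → ℂ) := by
  refine ⟨ℂ, inferInstance, inferInstance, inferInstance, Representation.trivial ℂ G ℂ, ?_, ?_⟩
  · haveI : Nontrivial (Subrepresentation (Representation.trivial ℂ G ℂ)) := by
      refine ⟨⟨⊥, ⊤, fun h => ?_⟩⟩
      have h1 : (1 : ℂ) ∈ (⊤ : Subrepresentation (Representation.trivial ℂ G ℂ)) := trivial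
      rw [← h] at h1
      exact one_ne_zero h1
    refine ⟨fun W => ?_⟩
    have hW : W.toSubmodule = ⊥ ∨ W.toSubmodule = ⊤ := eq_bot_or_eq_top W.toSubmodule
    rcases hW with h | h
    · left
      exact Subrepresentation.toSubmodule_injective h
    · right
      exact Subrepresentation.toSubmodule_injective h
  · funext g
    simp [Representation.character]

/-- **positivity** -/
theorem psd (M : Md O G) {ι : Type} [Fintype ι] (w : ι → ℝ) (y : ι → G) :
    (∑ i, w i) ^ 2 * (Module.finrank (RF O) (fix M.σ ⊤) : ℝ) ≤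
      (∑ i, ∑ j, ((w i * w j : ℝ) : ℂ) * brauerChar p O M.σ ((y i)⁻¹ * y j)).re := by
  set b := brauerChar p O M.σ with hb
  have hcl : IC.IsClass b := fun g y => brauer_class M.σ g y
  have hexp := IC.expand b hcl
  choose r hr0 hr using fun (χ : G → ℂ) (hχ : IsIrr χ) => coef_nonneg hp hG M hχ
  let r' : (G → ℂ) → ℝ := fun χ => if h : IsIrr χ then r χ h else 0
  have hr'0 : ∀ χ, 0 ≤ r' χ := by
    intro χ
    simp only [r']
    split_ifs with h
    · exact hr0 χ h
    · exact le_rfl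
  have hr' : ∀ χ ∈ IC.Irr G, IC.B b χ = r' χ := by
    intro χ hχ
    have h := mem_Irr.mp hχ
    simp only [r', dif_pos h]
    exact hr χ h
  let Q : (G → ℂ) → ℝ := fun χ => (∑ i, ∑ j, ((w i * w j : ℝ) : ℂ) * χ ((y i)⁻¹ * y j)).re
  have h1 : (∑ i, ∑ j, ((w i * w j : ℝ) : ℂ) * b ((y i)⁻¹ * y j)).re =
      ∑ χ ∈ IC.Irr G, r' χ * Q χ := by
    have h2 : ∑ i, ∑ j, ((w i * w j : ℝ) : ℂ) * b ((y i)⁻¹ * y j) =
        ∑ χ ∈ IC.Irr G, (r' χ : ℂ) * ∑ i, ∑ j, ((w i * w j : ℝ) : ℂ) * χ ((y i)⁻¹ * y j) := by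
      have h3 : ∀ g, b g = ∑ χ ∈ IC.Irr G, (r' χ : ℂ) * χ g := by
        intro g
        conv_lhs => rw [hexp]
        rw [Finset.sum_apply]
        refine Finset.sum_congr rfl fun χ hχ => ?_
        rw [Pi.smul_apply, smul_eq_mul, hr' χ hχ]
      simp only [h3, Finset.mul_sum]
      conv_rhs => rw [Finset.sum_comm]
      refine Finset.sum_congr rfl fun i _ => ?_
      conv_rhs => rw [Finset.sum_comm]
      refine Finset.sum_congr rfl fun j _ => Finset.sum_congr rfl fun χ _ => ?_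
      ring
    rw [h2, Complex.re_sum]
    refine Finset.sum_congr rfl fun χ _ => ?_
    rw [Complex.re_ofReal_mul]
  have h1' : IsIrr (1 : G → ℂ) := irr_one
  have hQ1 : Q 1 = (∑ i, w i) ^ 2 := by
    simp only [Q, Pi.one_apply, mul_one]
    rw [sq, Finset.sum_mul_sum]
    rw [← Complex.ofReal_re (∑ i, ∑ j, w i * w j)]
    push_cast
    rfl
  have hr1 : r' 1 = (Module.finrank (RF O) (fix M.σ ⊤) : ℝ) := by
    have h2 := hr' 1 (mem_Irr.mpr h1')
    have h3 := fix_dim hp hG M ⊤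
    have h4 : avg ⊤ b = IC.B b 1 := by
      rw [avg, IC.B, Subgroup.card_top]
      simp only [Subgroup.mem_top, if_true, Pi.one_apply, mul_one]
    rw [← hb, h4, h2] at h3
    exact_mod_cast h3.symm
  rw [h1]
  calc (∑ i, w i) ^ 2 * (Module.finrank (RF O) (fix M.σ ⊤) : ℝ) = r' 1 * Q 1 := by
        rw [hQ1, hr1, mul_comm]
    _ ≤ _ := Finset.single_le_sum (f := fun χ => r' χ * Q χ)
        (fun χ hχ => mul_nonneg (hr'0 χ) (psd_irr (mem_Irr.mp hχ) w y)) (mem_Irr.mpr h1')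

end hp

end Pool.Agent.Helper89.LG
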